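import Pool.Agent.W_c0up_h14.DefsG

/-!
# MP_c0ce05_co, Q2 (proofs row 518), section 1: systems of objects

`Sys N s Φ`: there are finitely many objects of initial mass at most `s` such that every general
position in which they have total mass `< 1` satisfies `Φ`. Systems can be joined (`Sys.and`,
`Sys.all`), and a class of objects (data, `m` independent leaves with a prior) is a system with the
conclusion `Σ_W Π a(W i) wtP(⋃ E(W i)) ≤ |D| / c` (`Sys_class`).
-/

set_option autoImplicit false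

namespace C0q2

open scoped Classical
open C0lo C0st

variable {N : ℕ}

/-- the number of links with source in `U` and target in `Q` -/
noncomputable def lk (P : GP N) (U Q : Finset (Sym2 (Fin N))) : ℕ :=
  (P.db.filter (fun d => d.1 ∈ U ∧ d.2 ∈ Q)).card

/-- normalised weight: `2 ^ |Q|` times the mass of `Q` -/
noncomputable def wtP (P : GP N) (Q : Finset (Sym2 (Fin N))) : ℝ :=
  if Disjoint Q P.K then 2 ^ (Q ∩ P.C).card * (3 / 4 : ℝ) ^ (lk P Q Q) else 0

/-- there are objects of initial mass at most `s` such that every position in which they have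
total mass `< 1` satisfies `Φ` -/
def Sys (N : ℕ) (s : ℝ) (Φ : GP N → Prop) : Prop :=
  ∃ (ι : Type) (_ : Fintype ι) (Z : ι → Finset (Sym2 (Fin N))) (a : ι → ℝ), (∀ i, 0 ≤ a i) ∧
    ∑ i, a i * (1 / 2 : ℝ) ^ (Z i).card ≤ s ∧
    ∀ P : GP N, ∑ i, a i * P.mass (Z i) < 1 → Φ P

theorem wtP_nonneg (P : GP N) (Q : Finset (Sym2 (Fin N))) : 0 ≤ wtP P Q := by
  unfold wtP
  split_ifs <;> positivity

theorem wtP_pos {P : GP N} {Q : Finset (Sym2 (Fin N))} (h : Disjoint Q P.K) : 0 < wtP P Q := by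
  unfold wtP
  rw [if_pos h]
  positivity

theorem mass_nonneg (P : GP N) (Q : Finset (Sym2 (Fin N))) : 0 ≤ P.mass Q := by
  unfold GP.mass
  split_ifs <;> positivity

/-- `mass Q = (1/2) ^ |Q| * wtP Q` -/
theorem mass_eq (P : GP N) (Q : Finset (Sym2 (Fin N))) :
    P.mass Q = (1 / 2 : ℝ) ^ Q.card * wtP P Q := by
  unfold GP.mass wtP
  by_cases h : Disjoint Q P.K
  · rw [if_pos h, if_pos h]
    have h1 : Q.card = (Q \ P.C).card + (Q ∩ P.C).card :=
      (Finset.card_sdiff_add_card_inter Q P.C).symm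
    have h2 : (1 / 2 : ℝ) ^ Q.card * (2 ^ (Q ∩ P.C).card * (3 / 4 : ℝ) ^ (lk P Q Q)) =
        (1 / 2 : ℝ) ^ (Q \ P.C).card * (3 / 4 : ℝ) ^ (lk P Q Q) := by
      rw [h1, pow_add]
      have h3 : (1 / 2 : ℝ) ^ (Q ∩ P.C).card * 2 ^ (Q ∩ P.C).card = 1 := by
        rw [← mul_pow]
        norm_num
      calc (1 / 2 : ℝ) ^ (Q \ P.C).card * (1 / 2 : ℝ) ^ (Q ∩ P.C).card *
            (2 ^ (Q ∩ P.C).card * (3 / 4 : ℝ) ^ (lk P Q Q))
          = (1 / 2 : ℝ) ^ (Q \ P.C).card * ((1 / 2 : ℝ) ^ (Q ∩ P.C).card *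
            2 ^ (Q ∩ P.C).card) * (3 / 4 : ℝ) ^ (lk P Q Q) := by ring
        _ = _ := by rw [h3, mul_one]
    rw [h2]
    rfl
  · rw [if_neg h, if_neg h, mul_zero]

theorem Sys.mono {s t : ℝ} {Φ Ψ : GP N → Prop} (h : Sys N s Φ) (hst : s ≤ t)
    (hi : ∀ P, Φ P → Ψ P) : Sys N t Ψ := by
  obtain ⟨ι, inst, Z, a, h1, h2, h3⟩ := h
  exact ⟨ι, inst, Z, a, h1, h2.trans hst, fun P hP => hi P (h3 P hP)⟩

theorem Sys.and {s t : ℝ} {Φ Ψ : GP N → Prop} (h : Sys N s Φ) (h' : Sys N t Ψ) :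
    Sys N (s + t) (fun P => Φ P ∧ Ψ P) := by
  obtain ⟨ι, inst, Z, a, h1, h2, h3⟩ := h
  obtain ⟨ι', inst', Z', a', h1', h2', h3'⟩ := h'
  refine ⟨ι ⊕ ι', inferInstance, Sum.elim Z Z', Sum.elim a a', ?_, ?_, ?_⟩
  · rintro (i | i)
    · exact h1 i
    · exact h1' i
  · rw [Fintype.sum_sum_type]
    exact add_le_add h2 h2'
  · intro P hP
    rw [Fintype.sum_sum_type] at hP
    simp only [Sum.elim_inl, Sum.elim_inr] at hP
    have h4 : 0 ≤ ∑ i, a i * P.mass (Z i) :=
      Finset.sum_nonneg (fun i _ => mul_nonneg (h1 i) (mass_nonneg P _))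
    have h5 : 0 ≤ ∑ i, a' i * P.mass (Z' i) :=
      Finset.sum_nonneg (fun i _ => mul_nonneg (h1' i) (mass_nonneg P _))
    exact ⟨h3 P (by linarith), h3' P (by linarith)⟩

theorem Sys.all {K : Type} [Fintype K] {s : K → ℝ} {Φ : K → GP N → Prop}
    (h : ∀ k, Sys N (s k) (Φ k)) : Sys N (∑ k, s k) (fun P => ∀ k, Φ k P) := by
  choose ι inst Z a h1 h2 h3 using h
  refine ⟨Σ k, ι k, inferInstance, fun i => Z i.1 i.2, fun i => a i.1 i.2,
    fun i => h1 i.1 i.2, ?_, ?_⟩
  · rw [Fintype.sum_sigma]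
    exact Finset.sum_le_sum (fun k _ => h2 k)
  · intro P hP k
    rw [Fintype.sum_sigma] at hP
    refine h3 k P (lt_of_le_of_lt ?_ hP)
    exact Finset.single_le_sum (f := fun k => ∑ i, a k i * P.mass (Z k i))
      (fun k _ => Finset.sum_nonneg (fun i _ => mul_nonneg (h1 k i) (mass_nonneg P _)))
      (Finset.mem_univ k)

/-- A class of objects: data `d ∈ D`, `m` leaves `W i ∈ Om` with prior `a d`, edge sets `E d ω`.
The object `(d, W)` has edge set `⋃ E d (W i)` and coefficient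
`(c / |D|) * Π a d (W i) * 2 ^ |⋃ E d (W i)|`. -/
theorem Sys_class {D Om : Type} [Fintype D] [Fintype Om] (m : ℕ)
    (E : D → Om → Finset (Sym2 (Fin N))) (a : D → Om → ℝ) (ha : ∀ d ω, 0 ≤ a d ω)
    (hs : ∀ d, ∑ ω, a d ω ≤ 1) {c : ℝ} (hc : 0 < c) :
    Sys N c (fun P => ∀ d, ∑ W : Fin m → Om, (∏ i, a d (W i)) *
      wtP P (Finset.univ.biUnion (fun i => E d (W i))) ≤ (Fintype.card D : ℝ) / c) := by
  by_cases hD : Nonempty D
  swap
  · refine ⟨Empty, inferInstance, fun _ => ∅, fun _ => 0, fun _ => le_rfl, ?_, ?_⟩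
    · simp only [Finset.univ_eq_empty, Finset.sum_empty]
      exact hc.le
    · intro P _ d
      exact absurd ⟨d⟩ hD
  have hDc : (0 : ℝ) < Fintype.card D := by exact_mod_cast Fintype.card_pos
  have hprod : ∀ (d : D), ∑ W : Fin m → Om, ∏ i, a d (W i) ≤ 1 := by
    intro d
    have h1 : ∑ W : Fin m → Om, ∏ i, a d (W i) = ∏ _i : Fin m, ∑ ω, a d ω := by
      rw [Finset.prod_univ_sum, Fintype.piFinset_univ]
    rw [h1]
    exact Finset.prod_le_one (fun _ _ => Finset.sum_nonneg (fun ω _ => ha d ω)) (fun _ _ => hs d)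
  refine ⟨D × (Fin m → Om), inferInstance,
    fun x => Finset.univ.biUnion (fun i => E x.1 (x.2 i)),
    fun x => c / Fintype.card D * (∏ i, a x.1 (x.2 i)) *
      2 ^ (Finset.univ.biUnion (fun i => E x.1 (x.2 i))).card, ?_, ?_, ?_⟩
  · intro x
    have := Finset.prod_nonneg (fun i (_ : i ∈ Finset.univ) => ha x.1 (x.2 i))
    positivity
  · have h1 : ∀ x : D × (Fin m → Om), c / Fintype.card D * (∏ i, a x.1 (x.2 i)) *
        2 ^ (Finset.univ.biUnion (fun i => E x.1 (x.2 i))).card *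
          (1 / 2 : ℝ) ^ (Finset.univ.biUnion (fun i => E x.1 (x.2 i))).card =
        c / Fintype.card D * (∏ i, a x.1 (x.2 i)) := by
      intro x
      rw [mul_assoc, ← mul_pow]
      norm_num
    rw [Finset.sum_congr rfl (fun x _ => h1 x), ← Finset.mul_sum, Fintype.sum_prod_type]
    calc c / Fintype.card D * ∑ d : D, ∑ W : Fin m → Om, ∏ i, a d (W i)
        ≤ c / Fintype.card D * ∑ _d : D, (1 : ℝ) :=
          mul_le_mul_of_nonneg_left (Finset.sum_le_sum (fun d _ => hprod d)) (by positivity)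
      _ = c := by
          rw [Finset.sum_const, Finset.card_univ, nsmul_eq_mul, mul_one]
          field_simp
  · intro P hP d
    have h1 : ∀ x : D × (Fin m → Om), c / Fintype.card D * (∏ i, a x.1 (x.2 i)) *
        2 ^ (Finset.univ.biUnion (fun i => E x.1 (x.2 i))).card *
          P.mass (Finset.univ.biUnion (fun i => E x.1 (x.2 i))) =
        c / Fintype.card D * ((∏ i, a x.1 (x.2 i)) *
          wtP P (Finset.univ.biUnion (fun i => E x.1 (x.2 i)))) := by
      intro x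
      rw [mass_eq]
      set n := (Finset.univ.biUnion (fun i => E x.1 (x.2 i))).card
      have h2 : (2 : ℝ) ^ n * (1 / 2) ^ n = 1 := by
        rw [← mul_pow]
        norm_num
      calc _ = c / Fintype.card D * (∏ i, a x.1 (x.2 i)) * ((2 : ℝ) ^ n * (1 / 2) ^ n) *
            wtP P (Finset.univ.biUnion (fun i => E x.1 (x.2 i))) := by ring
        _ = _ := by rw [h2]; ring
    rw [Finset.sum_congr rfl (fun x _ => h1 x), ← Finset.mul_sum, Fintype.sum_prod_type] at hP
    have h2 : ∑ W : Fin m → Om, (∏ i, a d (W i)) *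
        wtP P (Finset.univ.biUnion (fun i => E d (W i))) ≤
        ∑ d : D, ∑ W : Fin m → Om, (∏ i, a d (W i)) *
          wtP P (Finset.univ.biUnion (fun i => E d (W i))) :=
      Finset.single_le_sum (f := fun d => ∑ W : Fin m → Om, (∏ i, a d (W i)) *
          wtP P (Finset.univ.biUnion (fun i => E d (W i))))
        (fun d _ => Finset.sum_nonneg (fun W _ => mul_nonneg
          (Finset.prod_nonneg (fun i _ => ha d (W i))) (wtP_nonneg P _))) (Finset.mem_univ d)
    rw [le_div_iff₀ hc]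
    have h3 : c / Fintype.card D * ∑ W : Fin m → Om, (∏ i, a d (W i)) *
        wtP P (Finset.univ.biUnion (fun i => E d (W i))) < 1 :=
      lt_of_le_of_lt (mul_le_mul_of_nonneg_left h2 (by positivity)) hP
    rw [div_mul_eq_mul_div, div_lt_one hDc] at h3
    linarith

end C0q2
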