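import Pool.Agent.W_c0q2_h80.Un

/-!
# MP_c0ce05_co, Q2 (proofs row 518), section 2: the gain of the edges outside `B`
-/

set_option autoImplicit false

namespace C0g

open scoped Classical
open C0lo C0st C0q2

variable {N : ℕ}

private theorem card_ed_real (A : Finset (Fin N)) :
    ((ed A).card : ℝ) = (A.card : ℝ) * ((A.card : ℝ) - 1) / 2 := by
  rw [card_ed, Nat.cast_choose_two]

/-- Proof: `ed B ⊆ ed A`, `C0lo.card_ed`, `(b + j) (b + j - 1) / 2 - b (b - 1) / 2 = b j + j (j - 1) / 2`. -/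
theorem card_out {A B : Finset (Fin N)} (h : B ⊆ A) {b j : ℕ} (hb : B.card = b)
    (hj : A.card = b + j) :
    ((ed A \ ed B).card : ℝ) = (b : ℝ) * j + (j : ℝ) * ((j : ℝ) - 1) / 2 := by
  have h1 : (ed A \ ed B).card + (ed B).card = (ed A).card :=
    Finset.card_sdiff_add_card_eq_card (ed_mono h)
  have h2 : ((ed A \ ed B).card : ℝ) + ((ed B).card : ℝ) = ((ed A).card : ℝ) := by
    exact_mod_cast h1
  rw [card_ed_real, card_ed_real, hb, hj] at h2
  push_cast at h2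
  linarith

/-- Proof: `card_out`, `X = (X ∩ C) ∪ (X \ C)`, `(ed A \ ed B) \ P.C ⊆ ed A \ P.C`. -/
theorem card_out_inter {P : GP N} {A B : Finset (Fin N)} (h : B ⊆ A) {b j : ℕ} (hb : B.card = b)
    (hj : A.card = b + j) {u : ℝ} (hu : ((ed A \ P.C).card : ℝ) ≤ u) :
    (b : ℝ) * j + (j : ℝ) * ((j : ℝ) - 1) / 2 - u ≤ (((ed A \ ed B) ∩ P.C).card : ℝ) := by
  have h1 := card_out h hb hj
  have h2 : ((ed A \ ed B) \ P.C).card + ((ed A \ ed B) ∩ P.C).card = (ed A \ ed B).card :=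
    Finset.card_sdiff_add_card_inter _ _
  have h3 : (((ed A \ ed B) \ P.C).card : ℝ) + (((ed A \ ed B) ∩ P.C).card : ℝ) =
      ((ed A \ ed B).card : ℝ) := by exact_mod_cast h2
  have h4 : (((ed A \ ed B) \ P.C).card : ℝ) ≤ ((ed A \ P.C).card : ℝ) := by
    exact_mod_cast Finset.card_le_card
      (Finset.sdiff_subset_sdiff Finset.sdiff_subset (Finset.Subset.refl _))
  linarith

/-- Proof: `gain_ge`, `card_out_inter`, `g0 < 1`. -/
theorem gain_out1 {P : GP N} {Dl : ℕ} (hV : P.Valid Dl) {A B : Finset (Fin N)} (h : B ⊆ A)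
    {b j : ℕ} (hb : B.card = b) (hj : A.card = b + j) {u : ℝ}
    (hu : ((ed A \ P.C).card : ℝ) ≤ u) :
    (1 - g0) * ((b : ℝ) * j + (j : ℝ) * ((j : ℝ) - 1) / 2 - u) ≤
      gain P (ed A \ ed B) (ed A \ ed B) := by
  have h1 := card_out_inter (P := P) h hb hj hu
  have h2 := gain_ge hV (ed A \ ed B) (ed A \ ed B)
  have h3 := g0_lt
  exact (mul_le_mul_of_nonneg_left h1 (by linarith)).trans h2

/-- Proof: `card_out_inter`, `lk_mono` (links inside `ed A \ ed B` are links inside `ed A`). -/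
theorem gain_out2 {P : GP N} {A B : Finset (Fin N)} (h : B ⊆ A)
    {b j : ℕ} (hb : B.card = b) (hj : A.card = b + j) {u : ℝ}
    (hu : ((ed A \ P.C).card : ℝ) ≤ u) {D : ℕ} (hD : lk P (ed A) (ed A) ≤ D) :
    ((b : ℝ) * j + (j : ℝ) * ((j : ℝ) - 1) / 2 - u) - g0 * D ≤
      gain P (ed A \ ed B) (ed A \ ed B) := by
  have h1 := card_out_inter (P := P) h hb hj hu
  have h2 : lk P (ed A \ ed B) (ed A \ ed B) ≤ D :=
    (lk_mono Finset.sdiff_subset Finset.sdiff_subset).trans hD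
  have h3 : (lk P (ed A \ ed B) (ed A \ ed B) : ℝ) ≤ D := by exact_mod_cast h2
  have h4 := mul_le_mul_of_nonneg_left h3 g0_pos.le
  unfold gain
  linarith

end C0g
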