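import Pool.Agent.W_c0q2_h80.Un

/-!
# MP_c0ce05_co, Q2 (proofs row 518), section 2: numerical inequalities for Fact 1
-/

set_option autoImplicit false

namespace C0g

open scoped Classical
open C0lo C0st C0q2

/-- Case (i), `j ≤ 1.8 p`. Proof: `b j + j (j - 1) / 2 = j (q - (j + 1) / 2)`, `q ≥ 2 L - 2 l`,
`2 l ≤ .001 L`, `(j + 1) / 2 ≤ .001 L` (`p ≤ 10 ^ (-17) L`), so it is at least `1.998 j L`;
`g0 < .4151`, `g0 > .41503` (`g0_lt`, `g0_gt`): `h2` gives `H ≤ - .1686 j L + .58497 p L / 200 + κ`; with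
`h1`: `1.1686 H ≤ .58497 p L / 200 + κ`, so `H ≤ .50058 p L / 200 + κ < .51 p L / 200 + L`. -/
theorem num1 {N q b j : ℕ} {L l p H κ : ℝ} (hb : Big N q L l) (p1 : 10 ^ 15 ≤ p)
    (p2 : 10 ^ 17 * p ≤ L) (hbj : b + j = q) (hj : (j : ℝ) ≤ 1.8 * p) (h1 : H ≤ j * L)
    (h2 : H ≤ j * L - (1 - g0) * ((b : ℝ) * j + (j : ℝ) * ((j : ℝ) - 1) / 2 - p * L / 200) +
      3 / 200000 * (j * L) + κ) (hκ : κ ≤ L / 1000) : H < (0.00255 * p + 1) * L := by
  have hl0 := hb.l_big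
  have hl1 := hb.l_sm
  have hq := hb.q_ge
  have hg1 := g0_gt
  have hg2 := g0_lt
  have hL : (0 : ℝ) < L := by nlinarith
  have hp : (0 : ℝ) < p := by nlinarith
  have hj0 : (0 : ℝ) ≤ (j : ℝ) := Nat.cast_nonneg j
  have hqr : (b : ℝ) + j = q := by exact_mod_cast hbj
  have hA1 : (b : ℝ) * j + (j : ℝ) * ((j : ℝ) - 1) / 2 = j * ((q : ℝ) - ((j : ℝ) + 1) / 2) := by
    rw [← hqr]
    ring
  have hq2 : 1.998 * L ≤ (q : ℝ) - ((j : ℝ) + 1) / 2 := by
    have h3 : ((j : ℝ) + 1) / 2 ≤ p := by nlinarith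
    linarith
  have hA2 : 1.998 * ((j : ℝ) * L) ≤ (b : ℝ) * j + (j : ℝ) * ((j : ℝ) - 1) / 2 := by
    rw [hA1]
    have h3 := mul_le_mul_of_nonneg_left hq2 hj0
    linarith
  obtain ⟨A, hA⟩ : ∃ A : ℝ, A = (b : ℝ) * j + (j : ℝ) * ((j : ℝ) - 1) / 2 := ⟨_, rfl⟩
  rw [← hA] at h2 hA2
  have hjL : 0 ≤ (j : ℝ) * L := mul_nonneg hj0 hL.le
  have hpL : 0 < p * L := mul_pos hp hL
  have hA0 : 0 ≤ A := by linarith
  have e1 : 0.5849 * A ≤ (1 - g0) * A := mul_le_mul_of_nonneg_right (by linarith) hA0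
  have e2 : (1 - g0) * (p * L / 200) ≤ 0.58497 * (p * L / 200) :=
    mul_le_mul_of_nonneg_right (by linarith) (by linarith)
  have e3 : (1 - g0) * (A - p * L / 200) = (1 - g0) * A - (1 - g0) * (p * L / 200) := by ring
  have e4 : (0.00255 * p + 1) * L = 0.00255 * (p * L) + L := by ring
  rw [e3] at h2
  rw [e4]
  generalize (1 - g0) * A = X at *
  generalize (1 - g0) * (p * L / 200) = Y at *
  generalize (j : ℝ) * L = Z at *
  generalize p * L = W at *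
  linarith

/-- `j l - log₂ j! ≤ 1.45 L`. Proof: `L ^ j / j! ≤ exp L` (`Real.pow_div_factorial_le_exp`), take
`log₂`, `1 / log 2 ≤ 1.4427`. -/
theorem fact_le {L : ℝ} (hL : 1 ≤ L) (j : ℕ) :
    (j : ℝ) * Real.logb 2 L - Real.logb 2 (j.factorial : ℝ) ≤ 1.45 * L := by
  have hL0 : 0 < L := by linarith
  have hf : (0 : ℝ) < (j.factorial : ℝ) := by exact_mod_cast j.factorial_pos
  have h1 := Real.pow_div_factorial_le_exp L hL0.le j
  have h2 : Real.logb 2 (L ^ j / (j.factorial : ℝ)) ≤ Real.logb 2 (Real.exp L) :=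
    Real.logb_le_logb_of_le (by norm_num) (by positivity) h1
  rw [Real.logb_div (by positivity) hf.ne', Real.logb_pow] at h2
  have h3 : Real.logb 2 (Real.exp L) ≤ 1.45 * L := by
    rw [Real.logb, Real.log_exp, div_le_iff₀ (Real.log_pos (by norm_num))]
    have h4 := Real.log_two_gt_d9
    nlinarith
  linarith

private theorem Num_conc {L l p s t : ℝ} (hq : 2 * L - 2 * l ≤ s + t) (hl : 10 ^ 40 * l ≤ L)
    (hL : 0 < L) (hp : 0 < p) (hpL : 10 ^ 17 * p ≤ L) (hs : 1.3 * p ≤ s)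
    (hst : s ≤ t) : 1.29 * p * L ≤ s * t / 2 - 3 / 200000 * (s * L) := by
  have e1 : s * t / 2 - 3 / 200000 * (s * L) = s * (t / 2 - 3 / 200000 * L) := by ring
  rw [e1]
  rcases le_total s (3 * p) with h | h
  · have h1 : 0.9993 * L ≤ t / 2 - 3 / 200000 * L := by linarith
    calc 1.29 * p * L ≤ (1.3 * p) * (0.9993 * L) := by
          have := mul_pos hp hL
          nlinarith
      _ ≤ s * (t / 2 - 3 / 200000 * L) := mul_le_mul hs h1 (by positivity) (by linarith)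
  · have h1 : 0.499 * L ≤ t / 2 - 3 / 200000 * L := by linarith
    calc 1.29 * p * L ≤ (3 * p) * (0.499 * L) := by
          have := mul_pos hp hL
          nlinarith
      _ ≤ s * (t / 2 - 3 / 200000 * L) := mul_le_mul h h1 (by positivity) (by linarith)

/-- `j b / 2 - 3 ε min b j L ≥ 1.29 p L` for `b ≥ 1.3 p`, `j ≥ 1.8 p`, `b + j = q`. Proof: the
smaller one of `b`, `j` is called `s`, the larger one `t ≥ q / 2 ≥ .999 L`. If `s ≤ 3 p` then
`t ≥ 1.998 L` and `s (t / 2 - 3 ε L) ≥ 1.3 p * .998 L`; if `s ≥ 3 p` then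
`s (t / 2 - 3 ε L) ≥ 3 p * .499 L`. -/
theorem conc {N q b j : ℕ} {L l p : ℝ} (hb : Big N q L l) (p1 : 10 ^ 15 ≤ p)
    (p2 : 10 ^ 17 * p ≤ L) (hbj : b + j = q) (hb' : 1.3 * p ≤ b) (hj : 1.8 * p ≤ j) :
    1.29 * p * L ≤ (j : ℝ) * b / 2 - 3 / 200000 * (((min b j : ℕ) : ℝ) * L) := by
  have hl0 := hb.l_big
  have hl1 := hb.l_sm
  have hq := hb.q_ge
  have hL : (0 : ℝ) < L := by nlinarith
  have hp : (0 : ℝ) < p := by nlinarith
  have hqr : (b : ℝ) + j = q := by exact_mod_cast hbj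
  rcases le_total b j with h | h
  · rw [min_eq_left h]
    have h1 := Num_conc (L := L) (l := l) (p := p) (s := (b : ℝ)) (t := (j : ℝ)) (by linarith)
      hl1 hL hp p2 hb' (by exact_mod_cast h)
    have e1 : (j : ℝ) * b / 2 = (b : ℝ) * j / 2 := by ring
    rw [e1]
    exact h1
  · rw [min_eq_right h]
    exact Num_conc (L := L) (l := l) (p := p) (s := (j : ℝ)) (t := (b : ℝ)) (by linarith)
      hl1 hL hp p2 (by linarith) (by exact_mod_cast h)

/-- Case (ii), `b > 1.3 p`, `j ≥ 1.8 p`. Proof: `j L - b j - j (j - 1) / 2 = - j b / 2 +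
j (L - q / 2 + 1 / 2) ≤ - j b / 2 + j l` as `q ≥ 2 L - 2 l + 1`, `fact_le`, `conc`:
`H ≤ - 1.29 p L + 1.45 L + p L / 200 + .8302 p L + κ < 0` as `p ≥ 10 ^ 15`. -/
theorem num2 {N q b j : ℕ} {L l p H κ : ℝ} (hb : Big N q L l) (p1 : 10 ^ 15 ≤ p)
    (p2 : 10 ^ 17 * p ≤ L) (hbj : b + j = q) (hb' : 1.3 * p ≤ b) (hj : 1.8 * p ≤ j)
    (h : H ≤ (j * L - Real.logb 2 (j.factorial : ℝ)) -
      (((b : ℝ) * j + (j : ℝ) * ((j : ℝ) - 1) / 2 - p * L / 200) - g0 * (2 * p * L)) +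
      3 / 200000 * (((min b j : ℕ) : ℝ) * L) + κ) (hκ : κ ≤ L / 1000) : H < 0 := by
  have hl0 := hb.l_big
  have hl1 := hb.l_sm
  have hq := hb.q_ge
  have hg2 := g0_lt
  have hL : (0 : ℝ) < L := by nlinarith
  have hL1 : (1 : ℝ) ≤ L := by nlinarith
  have hp : (0 : ℝ) < p := by nlinarith
  have hqr : (b : ℝ) + j = q := by exact_mod_cast hbj
  have hj0 : (0 : ℝ) ≤ (j : ℝ) := Nat.cast_nonneg j
  have h1 := conc hb p1 p2 hbj hb' hj
  have h2 := fact_le hL1 j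
  rw [← hb.l_def] at h2
  have h3 : (j : ℝ) * L - ((b : ℝ) * j + (j : ℝ) * ((j : ℝ) - 1) / 2) ≤
      - ((j : ℝ) * b / 2) + j * l := by
    have e1 : (j : ℝ) * L - ((b : ℝ) * j + (j : ℝ) * ((j : ℝ) - 1) / 2) =
        - ((j : ℝ) * b / 2) + j * (L - (q : ℝ) / 2 + 1 / 2) := by
      rw [← hqr]
      ring
    rw [e1]
    have h4 : L - (q : ℝ) / 2 + 1 / 2 ≤ l := by linarith
    have h5 := mul_le_mul_of_nonneg_left h4 hj0
    linarith
  have hpL : 0 < p * L := mul_pos hp hL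
  have h5 : g0 * (2 * p * L) ≤ 0.8302 * (p * L) := by nlinarith
  have h6 : 10 ^ 15 * L ≤ p * L := mul_le_mul_of_nonneg_right p1 hL.le
  have e2 : 1.29 * p * L = 1.29 * (p * L) := by ring
  rw [e2] at h1
  generalize (j : ℝ) * b / 2 = X at *
  generalize ((min b j : ℕ) : ℝ) * L = Y at *
  generalize (b : ℝ) * j + (j : ℝ) * ((j : ℝ) - 1) / 2 = Z at *
  generalize g0 * (2 * p * L) = U at *
  generalize (j : ℝ) * L = T at *
  generalize (j : ℝ) * l = S at *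
  generalize Real.logb 2 (j.factorial : ℝ) = R at *
  generalize p * L = W at *
  linarith

/-- Proof: `q ≤ 2 L`, `64 (q + 1) ≤ 2 ^ 8 L`, so the left side is at most `8 + l ≤ 10 ^ (-3) L`. -/
theorem kap_le {N q : ℕ} {L l : ℝ} (hb : Big N q L l) :
    Real.logb 2 (64 * ((q : ℝ) + 1)) ≤ L / 1000 := by
  have hl0 := hb.l_big
  have hl1 := hb.l_sm
  have hq := hb.q_le
  have hL : (1 : ℝ) ≤ L := by nlinarith
  have hL0 : (0 : ℝ) < L := by linarith
  have hq0 : (0 : ℝ) ≤ (q : ℝ) := Nat.cast_nonneg q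
  have h1 : 64 * ((q : ℝ) + 1) ≤ 2 ^ (8 : ℕ) * L := by
    norm_num
    linarith
  have h2 : Real.logb 2 (64 * ((q : ℝ) + 1)) ≤ Real.logb 2 (2 ^ (8 : ℕ) * L) :=
    Real.logb_le_logb_of_le (by norm_num) (by positivity) h1
  rw [Real.logb_mul (by norm_num) hL0.ne', Real.logb_pow, Real.logb_self_eq_one (by norm_num),
    ← hb.l_def] at h2
  push_cast at h2
  linarith

/-- Proof: `Nat.choose_le_pow_div` : `N.choose j ≤ N ^ j / j!`, take `log₂`. -/
theorem logb_choose_le {N : ℕ} {L : ℝ} (hL : L = Real.logb 2 (N : ℝ)) (hN : 0 < N) {j : ℕ}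
    (hj : j ≤ N) :
    Real.logb 2 (N.choose j : ℝ) ≤ j * L - Real.logb 2 (j.factorial : ℝ) := by
  have hf : (0 : ℝ) < (j.factorial : ℝ) := by exact_mod_cast j.factorial_pos
  have hN' : (0 : ℝ) < (N : ℝ) := by exact_mod_cast hN
  have hc : (0 : ℝ) < (N.choose j : ℝ) := by exact_mod_cast Nat.choose_pos hj
  have h1 : (N.choose j : ℝ) ≤ (N : ℝ) ^ j / (j.factorial : ℝ) := Nat.choose_le_pow_div j N
  have h2 := Real.logb_le_logb_of_le (b := 2) (by norm_num) hc h1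
  rw [Real.logb_div (by positivity) hf.ne', Real.logb_pow, ← hL] at h2
  exact h2

end C0g
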