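import Pool.Agent.W_c0q2_h80.Clo

/-!
# MP_c0ce05_co, Q2 (proofs row 518), section 2: the price of a closure
-/

set_option autoImplicit false

namespace C0g

open scoped Classical
open C0lo C0st C0q2

/-- `Π_{0 < i < q} q / min i (q - i) ≤ exp (2 q)`. Proof: the factor is at most
`(q / i)` for `2 i ≤ q` and `q / (q - i)` for `2 i > q`. With `h = ⌊q/2⌋` the product of the first
kind is `q ^ h / h!`, the product of the second kind (substitute `k = q - i`, `1 ≤ k < q/2`, so at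
most `h` values `k ≤ h`, each factor `q / k ≥ 1`) is at most `q ^ h / h!`; and
`q ^ h / h! ≤ exp q` (one term of the series, `Real.pow_div_factorial_le_exp`). -/
theorem prod_min_le (q : ℕ) :
    ∏ i ∈ Finset.Ico 1 q, ((q : ℝ) / ((min i (q - i) : ℕ) : ℝ)) ≤ Real.exp (2 * q) := by
  rcases Nat.eq_zero_or_pos q with h0 | h0
  · subst h0
    simp
  · have key : ∏ i ∈ Finset.Ico 1 q, ((q : ℝ) / (i : ℝ)) ≤ Real.exp q := by
      obtain ⟨n, rfl⟩ : ∃ n, q = n + 1 := ⟨q - 1, by omega⟩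
      have h1 : ∏ i ∈ Finset.Ico 1 (n + 1), (((n + 1 : ℕ) : ℝ) / (i : ℝ)) =
          ((n + 1 : ℕ) : ℝ) ^ n / (n.factorial : ℝ) := by
        rw [Finset.prod_div_distrib, Finset.prod_const, Nat.card_Ico, Nat.add_sub_cancel]
        congr 1
        rw [← Finset.prod_Ico_id_eq_factorial, Nat.cast_prod]
      rw [h1]
      exact Real.pow_div_factorial_le_exp _ (by positivity) _
    have h2 : ∏ i ∈ Finset.Ico 1 q, ((q : ℝ) / ((q - i : ℕ) : ℝ)) =
        ∏ i ∈ Finset.Ico 1 q, ((q : ℝ) / (i : ℝ)) := by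
      have := Finset.prod_Ico_reflect (fun j : ℕ => (q : ℝ) / (j : ℝ)) 1 (m := q) (n := q)
        (by omega)
      rw [this]
      congr 1
      congr 1 <;> omega
    have h3 : ∏ i ∈ Finset.Ico 1 q, ((q : ℝ) / ((min i (q - i) : ℕ) : ℝ)) ≤
        ∏ i ∈ Finset.Ico 1 q, (((q : ℝ) / (i : ℝ)) * ((q : ℝ) / ((q - i : ℕ) : ℝ))) := by
      refine Finset.prod_le_prod (fun i _ => by positivity) ?_
      intro i hi
      obtain ⟨hi1, hi2⟩ := Finset.mem_Ico.1 hi
      have a1 : (1 : ℝ) ≤ (q : ℝ) / (i : ℝ) := by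
        rw [one_le_div (by exact_mod_cast hi1)]
        exact_mod_cast hi2.le
      have a2 : (1 : ℝ) ≤ (q : ℝ) / ((q - i : ℕ) : ℝ) := by
        rw [one_le_div (by exact_mod_cast (show 0 < q - i by omega))]
        exact_mod_cast (show q - i ≤ q by omega)
      rcases le_total i (q - i) with h | h
      · rw [min_eq_left h]
        nlinarith
      · rw [min_eq_right h]
        nlinarith
    refine h3.trans ?_
    rw [Finset.prod_mul_distrib, h2, two_mul, Real.exp_add]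
    exact mul_le_mul key key (Finset.prod_nonneg fun i _ => by positivity) (Real.exp_pos _).le

/-- Proof: `Rp q q = ρ q * Π_{0 < i < q} ρ q / min i (q - i) = ρ ^ q * q * Π q / min`, `ρ = 4 * 10 ^ 11
≤ 2 ^ 39`, `q ≤ 2 L`, `prod_min_le`, `exp (2 q) ≤ 2 ^ (3 q)` (`exp 1 ≤ 2.72 ≤ 2 ^ 1.5`), `q ≤ 2 ^ q`:
in total `2 ^ (43 q) ≤ 2 ^ (86 L)`. (`q ≥ 1` and `q ≤ 2 L` from `Big`.) -/
theorem Rp_le {N q : ℕ} {L l : ℝ} (hb : Big N q L l) : Rp q q ≤ (2 : ℝ) ^ (100 * L) := by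
  have hl := hb.l_big
  have hls := hb.l_sm
  have hq1 := hb.q_ge
  have hq2 := hb.q_le
  have hL : 0 < L := by nlinarith
  have hqL : (q : ℝ) ≤ 2 * L := by linarith
  have hqpos : 0 < q := by
    have h1 : (0 : ℝ) < q := by nlinarith
    exact_mod_cast h1
  have hsplit : Rp q q = (4 * 10 ^ 11 * (q : ℝ)) * ∏ i ∈ Finset.Ico 1 q,
      ((4 * 10 ^ 11 : ℝ) * ((q : ℝ) / ((min i (q - i) : ℕ) : ℝ))) := by
    unfold Rp
    rw [Finset.range_eq_Ico, ← Finset.prod_Ico_consecutive _ (Nat.zero_le 1) hqpos]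
    congr 1
    · simp [Ri]
    · refine Finset.prod_congr rfl fun i hi => ?_
      obtain ⟨hi1, hi2⟩ := Finset.mem_Ico.1 hi
      unfold Ri
      rw [if_neg (by omega)]
      ring
  rw [hsplit, Finset.prod_mul_distrib, Finset.prod_const, Nat.card_Ico]
  have h1 := prod_min_le q
  have h2 : (q : ℝ) ≤ 2 ^ q := by exact_mod_cast (Nat.lt_two_pow_self (n := q)).le
  have h3 : Real.exp (2 * q) ≤ 2 ^ (3 * q) := by
    have h4 : Real.exp 2 ≤ 8 := by
      have h5 : Real.exp 2 = Real.exp 1 * Real.exp 1 := by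
        rw [← Real.exp_add]
        norm_num
      have h6 := Real.exp_one_lt_d9
      have h7 := Real.exp_pos 1
      rw [h5]
      nlinarith
    rw [show (2 : ℝ) * q = (q : ℝ) * 2 by ring, Real.exp_nat_mul, pow_mul]
    calc Real.exp 2 ^ q ≤ 8 ^ q := by gcongr
      _ = (2 ^ 3) ^ q := by norm_num
  have h4 : (4 * 10 ^ 11 : ℝ) ≤ 2 ^ 39 := by norm_num
  have h5 : (4 * 10 ^ 11 : ℝ) * (4 * 10 ^ 11) ^ (q - 1) ≤ 2 ^ (39 * q) := by
    rw [← pow_succ', Nat.sub_add_cancel hqpos, pow_mul]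
    gcongr
  have h6 : 4 * 10 ^ 11 * (q : ℝ) * ((4 * 10 ^ 11) ^ (q - 1) *
      ∏ i ∈ Finset.Ico 1 q, ((q : ℝ) / ((min i (q - i) : ℕ) : ℝ))) ≤
      2 ^ (39 * q) * 2 ^ q * 2 ^ (3 * q) := by
    calc _ = ((4 * 10 ^ 11 : ℝ) * (4 * 10 ^ 11) ^ (q - 1)) * (q : ℝ) *
        ∏ i ∈ Finset.Ico 1 q, ((q : ℝ) / ((min i (q - i) : ℕ) : ℝ)) := by ring
      _ ≤ 2 ^ (39 * q) * 2 ^ q * 2 ^ (3 * q) := by
        have hp : 0 ≤ ∏ i ∈ Finset.Ico 1 q, ((q : ℝ) / ((min i (q - i) : ℕ) : ℝ)) :=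
          Finset.prod_nonneg fun i _ => by positivity
        have := h1.trans h3
        gcongr
  refine h6.trans ?_
  rw [← pow_add, ← pow_add, ← Real.rpow_natCast]
  apply Real.rpow_le_rpow_of_exponent_le (by norm_num)
  push_cast
  nlinarith

end C0g
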