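import Pool.Agent.W_c0q2_h80.SB
import Pool.Agent.W_c0q2_h80.RpB
import Pool.Agent.W_c0q2_h80.Num
import Pool.Agent.W_c0q2_h80.Gn

/-!
# MP_c0ce05_co, Q2 (proofs row 518), section 2: Fact 1
-/

set_option autoImplicit false

namespace C0g

open scoped Classical
open C0lo C0st C0q2

/-- **Fact 1** for one position. Proof: let `S` be a counterexample, `C = Fam P q D` (so the
members `A` have `q` elements, are alive, have `D = 2 p L` links and at most `D / 400 = p L / 200`
unclaimed edges). `cntS C S ≥ 2 ^ (..) > 0`, so `Clo.exists` gives a closure `B`; by `Clo.ent` and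
`Rp_le` `cntS C B ≥ 2 ^ ((.00255 p + 1) L)`, `H := log₂ (cntS C B) ≥ (.00255 p + 1) L > 0`.
`b = |B| ≥ |S| > 1.3 p`, `b ≤ q` (`Clo.card_le`). If `b = q` then every member of `pinS C B` is `B`,
`cntS C B ≤ 1`, `H ≤ 0`: contradiction. Otherwise `j = q - b ≥ 1` and `hSB` applies;
`log₂ (N.choose j) ≤ j L - log₂ j! ≤ j L` (`logb_choose_le`; `j ≤ q ≤ N` as `B ⊆ A`). The average
of the gain is at least the pointwise lower bounds `gain_out1`, `gain_out2` (`av` of a nonempty
family). If `j ≤ 1.8 p`: `num1` (`H ≤ j L`: all terms dropped are fine, or directly: `pinS C B` has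
at most `(N - b).choose j ≤ N ^ j` members; `min b j ≤ j`). If `j ≥ 1.8 p`: `num2`. -/
theorem fact1_pos {N q : ℕ} {L l : ℝ} (hb : Big N q L l) {P : GP N} {D : ℕ} {p : ℝ}
    (hc : Ctx N q L l P D p)
    (hSB : ∀ Dl, P.Valid Dl → ∀ (C : Finset (Finset (Fin N)))
      (S B : Finset (Fin N)), (∀ A ∈ C, A.card = q ∧ Disjoint (ed A) P.K) → Clo q C S B →
      B.card < q →
      Real.logb 2 (cntS C B : ℝ) ≤ Real.logb 2 (N.choose (q - B.card) : ℝ) -
        av (pinS C B) (fun A => gain P (ed A \ ed B) (ed A \ ed B)) +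
        3 / 200000 * (((min B.card (q - B.card) : ℕ) : ℝ) * L) +
        Real.logb 2 (64 * ((q : ℝ) + 1))) :
    F1 P q D L p := by
  intro S hS
  by_contra hcon
  rw [not_lt] at hcon
  set C : Finset (Finset (Fin N)) := Fam P q D with hCdef
  have hCq : ∀ A ∈ C, A.card = q := fun A hA => (mem_Fam.1 hA).1
  have hCd : ∀ A ∈ C, A.card = q ∧ Disjoint (ed A) P.K :=
    fun A hA => ⟨(mem_Fam.1 hA).1, (mem_Fam.1 hA).2.1⟩
  have hL0 : (0 : ℝ) < L := by
    have h1 := hc.p1
    have h2 := hc.p2
    nlinarith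
  have hp0 : (0 : ℝ) < p := by
    have h1 := hc.p1
    linarith
  have hN : 0 < N := by
    rcases Nat.eq_zero_or_pos N with h | h
    · exfalso
      have h1 := hb.L_def
      rw [h, Nat.cast_zero, Real.logb_zero] at h1
      linarith
    · exact h
  have hpos : (0 : ℝ) < (cntS C S : ℝ) := lt_of_lt_of_le (by positivity) hcon
  have hne : (pinS C S).Nonempty := by
    have h1 : 0 < cntS C S := by exact_mod_cast hpos
    exact Finset.card_pos.1 h1
  obtain ⟨B, hB⟩ := Clo.exists hCq hne
  have hBpos : (0 : ℝ) < (cntS C B : ℝ) := by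
    have h1 : 0 < (pinS C B).card := Finset.card_pos.2 hB.ne
    exact_mod_cast h1
  have hent := hB.ent hCq
  have hRp := Rp_le hb
  have hcnt : (2 : ℝ) ^ ((0.00255 * p + 1) * L) ≤ (cntS C B : ℝ) := by
    have h1 : (2 : ℝ) ^ ((0.00255 * p + 101) * L) =
        (2 : ℝ) ^ ((0.00255 * p + 1) * L) * (2 : ℝ) ^ (100 * L) := by
      rw [← Real.rpow_add (by norm_num)]
      congr 1
      ring
    have h2 : (2 : ℝ) ^ ((0.00255 * p + 1) * L) * (2 : ℝ) ^ (100 * L) ≤
        (cntS C B : ℝ) * (2 : ℝ) ^ (100 * L) := by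
      rw [← h1]
      exact hcon.trans (hent.trans (mul_le_mul_of_nonneg_left hRp hBpos.le))
    exact le_of_mul_le_mul_right h2 (by positivity)
  set H : ℝ := Real.logb 2 (cntS C B : ℝ) with hHdef
  have hH : (0.00255 * p + 1) * L ≤ H := by
    rw [hHdef, Real.le_logb_iff_rpow_le (by norm_num) hBpos]
    exact hcnt
  have hHpos : 0 < (0.00255 * p + 1) * L := by positivity
  have hbS : 1.3 * p < (B.card : ℝ) :=
    lt_of_lt_of_le hS (by exact_mod_cast Finset.card_le_card hB.sub)
  have hbq : B.card ≤ q := hB.card_le hCq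
  rcases Nat.lt_or_ge B.card q with hlt | hge
  · obtain ⟨Dl, hV, _⟩ := hc.val
    have h := hSB Dl hV C S B hCd hB hlt
    set b : ℕ := B.card with hbdef
    set j : ℕ := q - b with hjdef
    have hbj : b + j = q := by omega
    have hκ := kap_le hb
    obtain ⟨A0, hA0⟩ := hB.ne
    have hjN : j ≤ N := by
      have h1 := hCq A0 (mem_pinS.1 hA0).1
      have h2 : A0.card ≤ N := by
        have h3 := Finset.card_le_univ A0
        rwa [Fintype.card_fin] at h3
      omega
    have hch := logb_choose_le hb.L_def hN hjN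
    have hu : ∀ A ∈ pinS C B, ((ed A \ P.C).card : ℝ) ≤ p * L / 200 := by
      intro A hA
      have h1 := (mem_Fam.1 (mem_pinS.1 hA).1).2.2.2
      have h2 : (400 : ℝ) * ((ed A \ P.C).card : ℝ) ≤ (D : ℝ) := by exact_mod_cast h1
      rw [hc.hD] at h2
      linarith
    have hAcard : ∀ A ∈ pinS C B, A.card = b + j := by
      intro A hA
      rw [hCq A (mem_pinS.1 hA).1, hbj]
    have havge : ∀ (f : Finset (Fin N) → ℝ) (c : ℝ), (∀ A ∈ pinS C B, c ≤ f A) →
        c ≤ av (pinS C B) f := by
      intro f c hf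
      unfold av
      have hcard : (0 : ℝ) < ((pinS C B).card : ℝ) := by
        exact_mod_cast Finset.card_pos.2 hB.ne
      rw [le_div_iff₀ hcard]
      calc c * ((pinS C B).card : ℝ) = ∑ _A ∈ pinS C B, c := by
            rw [Finset.sum_const, nsmul_eq_mul]
            ring
        _ ≤ ∑ A ∈ pinS C B, f A := Finset.sum_le_sum hf
    have hmin : ((min b j : ℕ) : ℝ) ≤ (j : ℝ) := by exact_mod_cast min_le_right b j
    rcases le_total (j : ℝ) (1.8 * p) with hj | hj
    · -- first case
      have hav := havge (fun A => gain P (ed A \ ed B) (ed A \ ed B))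
        ((1 - g0) * ((b : ℝ) * j + (j : ℝ) * ((j : ℝ) - 1) / 2 - p * L / 200))
        (fun A hA => gain_out1 hV (mem_pinS.1 hA).2 rfl (hAcard A hA) (hu A hA))
      have hfact : (0 : ℝ) ≤ Real.logb 2 (j.factorial : ℝ) :=
        Real.logb_nonneg (by norm_num) (by exact_mod_cast Nat.succ_le_of_lt j.factorial_pos)
      have h1 : H ≤ j * L := by
        have h2 : cntS C B ≤ N.choose j := by
          have h3 : (pinS C B).card ≤ (Finset.powersetCard j (Finset.univ : Finset (Fin N))).card := by
            refine Finset.card_le_card_of_injOn (fun A => A \ B) ?_ ?_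
            · intro A hA
              have hA' := mem_pinS.1 (Finset.mem_coe.1 hA)
              refine Finset.mem_coe.2 (Finset.mem_powersetCard.2 ⟨Finset.subset_univ _, ?_⟩)
              rw [Finset.card_sdiff_of_subset hA'.2, hCq A hA'.1]
            · intro A hA A' hA' hAA
              have h1 := mem_pinS.1 (Finset.mem_coe.1 hA)
              have h2 := mem_pinS.1 (Finset.mem_coe.1 hA')
              have h3 : A \ B = A' \ B := hAA
              rw [← Finset.sdiff_union_of_subset h1.2, ← Finset.sdiff_union_of_subset h2.2, h3]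
          rw [Finset.card_powersetCard, Finset.card_univ, Fintype.card_fin] at h3
          exact h3
        have h3 : H ≤ Real.logb 2 (N.choose j : ℝ) :=
          Real.logb_le_logb_of_le (by norm_num) hBpos (by exact_mod_cast h2)
        linarith
      have h2 : H ≤ j * L - (1 - g0) * ((b : ℝ) * j + (j : ℝ) * ((j : ℝ) - 1) / 2 - p * L / 200) +
          3 / 200000 * (j * L) + Real.logb 2 (64 * ((q : ℝ) + 1)) := by
        have h3 : ((min b j : ℕ) : ℝ) * L ≤ j * L := mul_le_mul_of_nonneg_right hmin hL0.le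
        linarith
      have h3 := num1 hb hc.p1 hc.p2 hbj hj h1 h2 hκ
      linarith
    · have hav := havge (fun A => gain P (ed A \ ed B) (ed A \ ed B))
        (((b : ℝ) * j + (j : ℝ) * ((j : ℝ) - 1) / 2 - p * L / 200) - g0 * (2 * p * L))
        (fun A hA => by
          have h1 := gain_out2 (P := P) (mem_pinS.1 hA).2 rfl (hAcard A hA) (hu A hA)
            (le_of_eq (mem_Fam.1 (mem_pinS.1 hA).1).2.2.1)
          rw [hc.hD] at h1
          exact h1)
      have h2 : H ≤ (j * L - Real.logb 2 (j.factorial : ℝ)) -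
          (((b : ℝ) * j + (j : ℝ) * ((j : ℝ) - 1) / 2 - p * L / 200) - g0 * (2 * p * L)) +
          3 / 200000 * (((min b j : ℕ) : ℝ) * L) + Real.logb 2 (64 * ((q : ℝ) + 1)) := by
        linarith
      have h3 := num2 hb hc.p1 hc.p2 hbj hbS.le hj h2 hκ
      linarith
  · have h1 : (pinS C B).card ≤ 1 := by
      refine Finset.card_le_one.2 fun A hA A' hA' => ?_
      have h2 : ∀ A ∈ pinS C B, B = A := fun A hA =>
        Finset.eq_of_subset_of_card_le (mem_pinS.1 hA).2
          (by rw [hCq A (mem_pinS.1 hA).1]; exact hge)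
      rw [← h2 A hA, ← h2 A' hA']
    have h2 : (cntS C B : ℝ) ≤ 1 := by exact_mod_cast h1
    have h3 : H ≤ 0 := Real.logb_nonpos (by norm_num) hBpos.le h2
    linarith

/-- **Fact 1** -/
theorem s_F1 : S_F1 := by
  intro N q L l hb
  refine (sb_sys hb).mono le_rfl ?_
  intro P hP D p hc
  exact fact1_pos hb hc hP

end C0g
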