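import Pool.Agent.W_c0q2_h80.Bd

/-!
# MP_c0ce05_co, Q2 (proofs row 518), section 1: the popularity form (G')
-/

set_option autoImplicit false

namespace C0g

open scoped Classical
open C0lo C0st C0q2

variable {N : ℕ}

theorem card_ed_le_sq {A : Finset (Fin N)} {L : ℝ} (hA : (A.card : ℝ) ≤ 2 * L) :
    ((ed A).card : ℝ) ≤ 4 * L ^ 2 := by
  have h1 : (ed A).card ≤ A.card ^ 2 := by
    rw [card_ed, Nat.choose_two_right, pow_two]
    exact (Nat.div_le_self _ _).trans (Nat.mul_le_mul_left _ (Nat.sub_le _ _))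
  have h2 : ((ed A).card : ℝ) ≤ (A.card : ℝ) ^ 2 := by exact_mod_cast h1
  have h3 : (0 : ℝ) ≤ A.card := Nat.cast_nonneg _
  nlinarith

/-- (G') for one position -/
theorem gp_pos {P : GP N} {L : ℝ} (hL : 10 ^ 17 ≤ L) (hVd : Vd P L) {m : ℕ} (hm : 1 ≤ m)
    (T : Finset (Fin N)) {a : Finset (Fin N) → ℝ} (ha : ∀ A, 0 ≤ a A) {Λ : ℝ} (hΛ : 0 < Λ)
    (hs : ∑ W : Fin m → Finset (Fin N), (∏ i, a (W i)) *
      wtP P (Finset.univ.biUnion (fun i => ed (W i \ T))) ≤ Λ)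
    {C : Finset (Finset (Fin N))} (hC : C.Nonempty)
    (hA : ∀ A ∈ C, Disjoint (ed A) P.K ∧ (A.card : ℝ) ≤ 2 * L ∧ 0 < a A) :
    ∑ A ∈ C, (Real.logb 2 (C.card : ℝ) + Real.logb 2 (a A) +
      ((((ed (A \ T)) ∩ P.C) \ lossy C (1 / (L ^ 12 * m)) (A \ T)).card : ℝ) -
      g0 * (lk P (ed (A \ T)) (ed (A \ T)) : ℝ)) ≤
    (Real.logb 2 Λ / m + 2) * (C.card : ℝ) := by
  obtain ⟨Dl, hV, hDl⟩ := hVd
  have hL0 : (0 : ℝ) < L := by linarith [show (0 : ℝ) < 10 ^ 17 by norm_num]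
  have hL1 : (1 : ℝ) ≤ L := by linarith [show (1 : ℝ) ≤ 10 ^ 17 by norm_num]
  have hm0 : (0 : ℝ) < m := by exact_mod_cast hm
  have hm1 : (1 : ℝ) ≤ m := by exact_mod_cast hm
  have hc : (0 : ℝ) < C.card := by exact_mod_cast hC.card_pos
  set θ : ℝ := 1 / (L ^ 12 * m) with hθd
  have hθ0 : 0 < θ := by positivity
  set ϑ : ℝ := 1 / (L ^ 4 * m) with hϑd
  have hϑ0 : 0 < ϑ := by positivity
  set E : Finset (Fin N) → Finset (Sym2 (Fin N)) := fun A => ed (A \ T) with hE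
  set U : Finset (Fin N) → Finset (Sym2 (Fin N)) :=
    fun A => ed (A \ T) \ lossy C θ (A \ T) with hU
  set Pop : Finset (Sym2 (Fin N)) :=
    Finset.univ.filter (fun f => ϑ ≤ prE (unif C) E f) with hPop
  have hlaw := unif_law hC
  have hEed : ∀ A, E A ⊆ ed A := by
    intro A e he
    rw [hE, mem_ed] at he
    rw [mem_ed]
    exact ⟨fun v hv => (Finset.mem_sdiff.1 (he.1 v hv)).1, he.2⟩
  have hEn : ∀ A, unif C A ≠ 0 → ((E A).card : ℝ) ≤ 4 * L ^ 2 := by
    intro A hA'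
    refine le_trans ?_ (card_ed_le_sq (hA A (unif_ne hA')).2.1)
    exact_mod_cast Finset.card_le_card (hEed A)
  have hUn : ∀ A, unif C A ≠ 0 → ((U A).card : ℝ) ≤ 4 * L ^ 2 := by
    intro A hA'
    refine le_trans ?_ (hEn A hA')
    exact_mod_cast Finset.card_le_card Finset.sdiff_subset
  have hprU : ∀ e, prE (unif C) U e ≤ θ := by
    intro e
    rw [prE_unif]
    by_cases hex : ∃ A ∈ C, e ∈ U A
    · obtain ⟨A, hAC, heA⟩ := hex
      rw [hU, Finset.mem_sdiff] at heA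
      have h1 : ¬ (θ * C.card < cntE C e) := by
        intro h2
        apply heA.2
        unfold lossy
        exact Finset.mem_filter.2 ⟨heA.1, h2⟩
      push Not at h1
      rw [div_le_iff₀ hc]
      refine le_trans ?_ h1
      unfold cntE
      have h2 : (C.filter (fun A => e ∈ U A)).card ≤ (C.filter (fun A => e ∈ ed A)).card := by
        refine Finset.card_le_card (fun B hB => ?_)
        rw [Finset.mem_filter] at hB ⊢
        exact ⟨hB.1, hEed B (Finset.sdiff_subset hB.2)⟩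
      exact_mod_cast h2
    · push Not at hex
      rw [Finset.filter_false_of_mem hex, Finset.card_empty, Nat.cast_zero, zero_div]
      exact hθ0.le
  have hG := G_fam hV hC (Nat.lt_of_lt_of_le Nat.zero_lt_one hm) Pop (U := U) (E := E)
    (fun A _ => Finset.sdiff_subset)
    (fun A hAC => Finset.disjoint_of_subset_left (hEed A) (hA A hAC).1) ha
    (fun A hAC => (hA A hAC).2.2) hΛ hs
  have hovl : ovl (unif C) U ≤ θ * (4 * L ^ 2) := ovl_le hlaw hθ0.le hprU hUn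
  have hcrs : crs P Pop (unif C) U E ≤ ϑ * (4 * L ^ 2) := by
    refine crs_le hV hlaw hϑ0.le ?_ hUn
    intro f _ hf
    by_contra h1
    push Not at h1
    exact hf (Finset.mem_filter.2 ⟨Finset.mem_univ _, h1.le⟩)
  have hppl : ppl P Pop (unif C) U ≤ ((Dl : ℝ) * (Pop.card : ℝ)) * θ :=
    ppl_le hV hθ0.le hprU
  have hpop : (Pop.card : ℝ) * ϑ ≤ 4 * L ^ 2 :=
    card_pop_mul hlaw (fun f hf => (Finset.mem_filter.1 hf).2) hEn
  have hpop' : (Pop.card : ℝ) ≤ 4 * L ^ 6 * m := by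
    rw [hϑd, mul_one_div, div_le_iff₀ (by positivity)] at hpop
    calc (Pop.card : ℝ) ≤ 4 * L ^ 2 * (L ^ 4 * m) := hpop
      _ = 4 * L ^ 6 * m := by ring
  -- error terms
  have hg1 : g0 ≤ 1 := by
    have := g0_lt
    linarith
  have e1 : ((m : ℝ) - 1) * (ovl (unif C) U / 2) ≤ 1 / 2 := by
    have h1 : ((m : ℝ) - 1) * (ovl (unif C) U / 2) ≤ m * (θ * (4 * L ^ 2) / 2) := by
      have h2 : 0 ≤ (m : ℝ) - 1 := by linarith
      calc ((m : ℝ) - 1) * (ovl (unif C) U / 2) ≤ ((m : ℝ) - 1) * (θ * (4 * L ^ 2) / 2) :=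
            mul_le_mul_of_nonneg_left (by linarith) h2
        _ ≤ m * (θ * (4 * L ^ 2) / 2) := by
            refine mul_le_mul_of_nonneg_right (by linarith) (by positivity)
    have h3 : (m : ℝ) * (θ * (4 * L ^ 2) / 2) = 2 / L ^ 10 := by
      rw [hθd]
      field_simp
      ring
    have h4 : (4 : ℝ) ≤ L ^ 10 := by
      calc (4 : ℝ) ≤ L := by linarith [show (4 : ℝ) ≤ 10 ^ 17 by norm_num]
        _ ≤ L ^ 10 := le_self_pow₀ hL1 (by norm_num)
    have h5 : 2 / L ^ 10 ≤ 1 / 2 := by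
      rw [div_le_div_iff₀ (by positivity) (by norm_num)]
      linarith
    linarith
  have e2 : ((m : ℝ) - 1) * (g0 * crs P Pop (unif C) U E) ≤ 1 / 2 := by
    have h1 : ((m : ℝ) - 1) * (g0 * crs P Pop (unif C) U E) ≤ m * (1 * (ϑ * (4 * L ^ 2))) := by
      have h2 : 0 ≤ (m : ℝ) - 1 := by linarith
      have h3 : g0 * crs P Pop (unif C) U E ≤ 1 * (ϑ * (4 * L ^ 2)) := by
        calc g0 * crs P Pop (unif C) U E ≤ g0 * (ϑ * (4 * L ^ 2)) :=
              mul_le_mul_of_nonneg_left hcrs g0_pos.le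
          _ ≤ 1 * (ϑ * (4 * L ^ 2)) := mul_le_mul_of_nonneg_right hg1 (by positivity)
      calc ((m : ℝ) - 1) * (g0 * crs P Pop (unif C) U E)
          ≤ ((m : ℝ) - 1) * (1 * (ϑ * (4 * L ^ 2))) := mul_le_mul_of_nonneg_left h3 h2
        _ ≤ m * (1 * (ϑ * (4 * L ^ 2))) := by
            refine mul_le_mul_of_nonneg_right (by linarith) (by positivity)
    have h3 : (m : ℝ) * (1 * (ϑ * (4 * L ^ 2))) = 4 / L ^ 2 := by
      rw [hϑd]
      field_simp
    have h4 : (8 : ℝ) ≤ L ^ 2 := by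
      calc (8 : ℝ) ≤ L := by linarith [show (8 : ℝ) ≤ 10 ^ 17 by norm_num]
        _ ≤ L ^ 2 := le_self_pow₀ hL1 (by norm_num)
    have h5 : 4 / L ^ 2 ≤ 1 / 2 := by
      rw [div_le_div_iff₀ (by positivity) (by norm_num)]
      linarith
    linarith
  have e3 : g0 * ppl P Pop (unif C) U ≤ 1 / 2 := by
    have h1 : ppl P Pop (unif C) U ≤ (10 * L ^ 2 * (4 * L ^ 6 * m)) * θ := by
      refine hppl.trans (mul_le_mul_of_nonneg_right ?_ hθ0.le)
      exact mul_le_mul hDl hpop' (Nat.cast_nonneg _) (by positivity)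
    have h2 : (10 * L ^ 2 * (4 * L ^ 6 * m)) * θ = 40 / L ^ 4 := by
      rw [hθd]
      field_simp
      ring
    have h4 : (80 : ℝ) ≤ L ^ 4 := by
      calc (80 : ℝ) ≤ L := by linarith [show (80 : ℝ) ≤ 10 ^ 17 by norm_num]
        _ ≤ L ^ 4 := le_self_pow₀ hL1 (by norm_num)
    have h5 : 40 / L ^ 4 ≤ 1 / 2 := by
      rw [div_le_div_iff₀ (by positivity) (by norm_num)]
      linarith
    have h6 : ppl P Pop (unif C) U ≤ 1 / 2 := by linarith
    have h7 : g0 * ppl P Pop (unif C) U ≤ g0 * (1 / 2) := mul_le_mul_of_nonneg_left h6 g0_pos.le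
    linarith
  have hG2 : Real.logb 2 (C.card : ℝ) ≤ Real.logb 2 Λ / m +
      av C (fun ω => - Real.logb 2 (a ω)) - av C (fun ω => gain P (U ω) (E ω)) + 2 := by
    have h1 : ((m : ℝ) - 1) * (ovl (unif C) U / 2 + g0 * crs P Pop (unif C) U E) =
        ((m : ℝ) - 1) * (ovl (unif C) U / 2) + ((m : ℝ) - 1) * (g0 * crs P Pop (unif C) U E) := by
      ring
    rw [h1] at hG
    linarith
  -- pointwise
  have hpt : ∀ A ∈ C, ((((ed (A \ T)) ∩ P.C) \ lossy C θ (A \ T)).card : ℝ) -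
      g0 * (lk P (ed (A \ T)) (ed (A \ T)) : ℝ) ≤ gain P (U A) (E A) := by
    intro A _
    unfold gain
    have h1 : ((ed (A \ T)) ∩ P.C) \ lossy C θ (A \ T) = U A ∩ P.C := by
      ext e
      simp only [hU, Finset.mem_sdiff, Finset.mem_inter]
      tauto
    have h2 : (lk P (U A) (E A) : ℝ) ≤ (lk P (ed (A \ T)) (ed (A \ T)) : ℝ) := by
      exact_mod_cast lk_mono Finset.sdiff_subset (le_refl (ed (A \ T)))
    have h3 := mul_le_mul_of_nonneg_left h2 g0_pos.le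
    rw [h1]
    linarith
  have hsum : ∑ A ∈ C, (Real.logb 2 (C.card : ℝ) + Real.logb 2 (a A) +
      ((((ed (A \ T)) ∩ P.C) \ lossy C θ (A \ T)).card : ℝ) -
      g0 * (lk P (ed (A \ T)) (ed (A \ T)) : ℝ)) ≤
      ∑ A ∈ C, (Real.logb 2 (C.card : ℝ) + Real.logb 2 (a A) + gain P (U A) (E A)) := by
    refine Finset.sum_le_sum (fun A hAC => ?_)
    have := hpt A hAC
    linarith
  refine hsum.trans ?_
  rw [Finset.sum_add_distrib, Finset.sum_add_distrib, Finset.sum_const, nsmul_eq_mul]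
  have h1 : av C (fun ω => - Real.logb 2 (a ω)) * C.card = - ∑ A ∈ C, Real.logb 2 (a A) := by
    unfold av
    rw [div_mul_cancel₀ _ hc.ne', Finset.sum_neg_distrib]
  have h2 : av C (fun ω => gain P (U ω) (E ω)) * C.card = ∑ A ∈ C, gain P (U A) (E A) := by
    unfold av
    rw [div_mul_cancel₀ _ hc.ne']
  have h3 := mul_le_mul_of_nonneg_right hG2 hc.le
  rw [add_mul, sub_mul, add_mul, h1, h2] at h3
  linarith

/-- **(G')**, type II -/
theorem s_G : S_G := by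
  intro N L hL hLb Dt _ m T a c hm hc ha hs
  refine (Sys_class m (fun d A => ed (A \ T d)) a ha hs hc).mono le_rfl ?_
  intro P hP hVd d C hC hA
  have hD : (0 : ℝ) < Fintype.card Dt := by
    haveI : Nonempty Dt := ⟨d⟩
    exact_mod_cast Fintype.card_pos
  have h1 := gp_pos hLb hVd hm (T d) (ha d) (div_pos hD hc) (hP d) hC hA
  have h2 : Real.logb 2 (Fintype.card Dt / c) =
      Real.logb 2 (Fintype.card Dt : ℝ) + Real.logb 2 (1 / c) := by
    rw [Real.logb_div hD.ne' hc.ne', one_div, Real.logb_inv]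
    ring
  rw [h2] at h1
  exact h1

end C0g
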