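import Pool.Agent.W_c0q2_h80.G

/-!
# MP_c0ce05_co, Q2 (proofs row 518), section 1: bounds for the error terms of (G)
-/

set_option autoImplicit false

namespace C0g

open scoped Classical
open C0lo C0st C0q2

variable {N : ℕ} {Om : Type} [Fintype Om]

theorem prE_nonneg {μ : Om → ℝ} (h : Law μ) (U : Om → Finset (Sym2 (Fin N)))
    (e : Sym2 (Fin N)) : 0 ≤ prE μ U e := by
  unfold prE ex1
  refine Finset.sum_nonneg (fun ω _ => mul_nonneg (h.nn ω) ?_)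
  simp only
  split_ifs <;> norm_num

theorem sum_prE_mul (μ : Om → ℝ) (U : Om → Finset (Sym2 (Fin N))) (f : Sym2 (Fin N) → ℝ) :
    ∑ e, prE μ U e * f e = ex1 μ (fun ω => ∑ e ∈ U ω, f e) := by
  unfold prE ex1
  have h1 : ∀ ω, μ ω * ∑ e ∈ U ω, f e =
      ∑ e, μ ω * (if e ∈ U ω then (1 : ℝ) else 0) * f e := by
    intro ω
    rw [Finset.mul_sum, ← Finset.sum_filter_add_sum_filter_not Finset.univ (fun e => e ∈ U ω)]
    have h2 : (Finset.univ.filter (fun e => e ∈ U ω)) = U ω := by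
      ext e
      simp
    rw [h2]
    have h3 : ∑ e ∈ Finset.univ.filter (fun e => ¬ e ∈ U ω),
        μ ω * (if e ∈ U ω then (1 : ℝ) else 0) * f e = 0 := by
      refine Finset.sum_eq_zero (fun e he => ?_)
      rw [if_neg (Finset.mem_filter.1 he).2]
      ring
    rw [h3, add_zero]
    refine Finset.sum_congr rfl (fun e he => ?_)
    rw [if_pos he, mul_one]
  rw [Finset.sum_congr rfl (fun ω _ => h1 ω), Finset.sum_comm]
  refine Finset.sum_congr rfl (fun e _ => ?_)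
  rw [Finset.sum_mul]

theorem sum_prE (μ : Om → ℝ) (U : Om → Finset (Sym2 (Fin N))) :
    ∑ e, prE μ U e = ex1 μ (fun ω => ((U ω).card : ℝ)) := by
  have h := sum_prE_mul μ U (fun _ => 1)
  simp only [mul_one, Finset.sum_const, nsmul_eq_mul] at h
  exact h

theorem ovl_eq (μ : Om → ℝ) (U : Om → Finset (Sym2 (Fin N))) :
    ovl μ U = ex1 μ (fun ω => ∑ e ∈ U ω, prE μ U e) := by
  rw [← sum_prE_mul]
  unfold ovl
  exact Finset.sum_congr rfl (fun e _ => pow_two _)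

theorem ovl_le {μ : Om → ℝ} (h : Law μ) {U : Om → Finset (Sym2 (Fin N))} {θ n : ℝ}
    (h0 : 0 ≤ θ) (hθ : ∀ e, prE μ U e ≤ θ) (hn : ∀ ω, μ ω ≠ 0 → ((U ω).card : ℝ) ≤ n) :
    ovl μ U ≤ θ * n := by
  rw [ovl_eq]
  refine (ex1_mono h (g := fun _ => θ * n) (fun ω hω => ?_)).trans (le_of_eq (ex1_const h _))
  calc ∑ e ∈ U ω, prE μ U e ≤ ∑ _e ∈ U ω, θ := Finset.sum_le_sum (fun e _ => hθ e)
    _ = (U ω).card * θ := by rw [Finset.sum_const, nsmul_eq_mul]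
    _ ≤ n * θ := mul_le_mul_of_nonneg_right (hn ω hω) h0
    _ = θ * n := mul_comm _ _

theorem sum_db_prE {P : GP N} {Dl : ℕ} (hV : P.Valid Dl) {μ : Om → ℝ} (h : Law μ)
    (U : Om → Finset (Sym2 (Fin N))) {n : ℝ} (hn : ∀ ω, μ ω ≠ 0 → ((U ω).card : ℝ) ≤ n) :
    ∑ d ∈ P.db, prE μ U d.1 ≤ n := by
  have h1 : ∑ d ∈ P.db, prE μ U d.1 = ∑ e ∈ P.db.image Prod.fst, prE μ U e := by
    rw [Finset.sum_image]
    intro d hd d' hd' hdd
    exact hV.fn d hd d' hd' hdd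
  rw [h1]
  calc ∑ e ∈ P.db.image Prod.fst, prE μ U e ≤ ∑ e, prE μ U e :=
        Finset.sum_le_sum_of_subset_of_nonneg (Finset.subset_univ _)
          (fun e _ _ => prE_nonneg h U e)
    _ = ex1 μ (fun ω => ((U ω).card : ℝ)) := sum_prE μ U
    _ ≤ ex1 μ (fun _ => n) := ex1_mono h hn
    _ = n := ex1_const h n

theorem crs_le {P : GP N} {Dl : ℕ} (hV : P.Valid Dl) {μ : Om → ℝ} (h : Law μ)
    {Pop : Finset (Sym2 (Fin N))} {U E : Om → Finset (Sym2 (Fin N))} {ϑ n : ℝ} (h0 : 0 ≤ ϑ)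
    (hϑ : ∀ f, ¬ f.IsDiag → f ∉ Pop → prE μ E f ≤ ϑ)
    (hn : ∀ ω, μ ω ≠ 0 → ((U ω).card : ℝ) ≤ n) : crs P Pop μ U E ≤ ϑ * n := by
  unfold crs
  calc ∑ d ∈ P.db.filter (fun d => d.2 ∉ Pop), prE μ U d.1 * prE μ E d.2
      ≤ ∑ d ∈ P.db.filter (fun d => d.2 ∉ Pop), prE μ U d.1 * ϑ := by
        refine Finset.sum_le_sum (fun d hd => ?_)
        obtain ⟨h1, h2⟩ := Finset.mem_filter.1 hd
        exact mul_le_mul_of_nonneg_left (hϑ d.2 (hV.snd d h1) h2) (prE_nonneg h U _)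
    _ ≤ ∑ d ∈ P.db, prE μ U d.1 * ϑ :=
        Finset.sum_le_sum_of_subset_of_nonneg (Finset.filter_subset _ _)
          (fun d _ _ => mul_nonneg (prE_nonneg h U _) h0)
    _ = (∑ d ∈ P.db, prE μ U d.1) * ϑ := by rw [Finset.sum_mul]
    _ ≤ n * ϑ := mul_le_mul_of_nonneg_right (sum_db_prE hV h U hn) h0
    _ = ϑ * n := mul_comm _ _

theorem ppl_le {P : GP N} {Dl : ℕ} (hV : P.Valid Dl) {μ : Om → ℝ}
    {Pop : Finset (Sym2 (Fin N))} {U : Om → Finset (Sym2 (Fin N))} {θ : ℝ} (h0 : 0 ≤ θ)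
    (hθ : ∀ e, prE μ U e ≤ θ) : ppl P Pop μ U ≤ ((Dl : ℝ) * (Pop.card : ℝ)) * θ := by
  unfold ppl
  calc ∑ d ∈ P.db.filter (fun d => d.2 ∈ Pop), prE μ U d.1
      ≤ ∑ _d ∈ P.db.filter (fun d => d.2 ∈ Pop), θ := Finset.sum_le_sum (fun d _ => hθ d.1)
    _ = ((P.db.filter (fun d => d.2 ∈ Pop)).card : ℝ) * θ := by
        rw [Finset.sum_const, nsmul_eq_mul]
    _ ≤ ((Dl : ℝ) * (Pop.card : ℝ)) * θ := by
        refine mul_le_mul_of_nonneg_right ?_ h0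
        have h1 : P.db.filter (fun d => d.2 ∈ Pop) ⊆
            Pop.biUnion (fun f => P.db.filter (fun d => d.2 = f)) := by
          intro d hd
          obtain ⟨h2, h3⟩ := Finset.mem_filter.1 hd
          exact Finset.mem_biUnion.2 ⟨d.2, h3, Finset.mem_filter.2 ⟨h2, rfl⟩⟩
        have h2 : (P.db.filter (fun d => d.2 ∈ Pop)).card ≤ Dl * Pop.card :=
          calc (P.db.filter (fun d => d.2 ∈ Pop)).card
              ≤ (Pop.biUnion (fun f => P.db.filter (fun d => d.2 = f))).card :=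
                Finset.card_le_card h1
            _ ≤ ∑ f ∈ Pop, (P.db.filter (fun d => d.2 = f)).card := Finset.card_biUnion_le
            _ ≤ ∑ _f ∈ Pop, Dl := Finset.sum_le_sum (fun f _ => hV.indeg f)
            _ = Dl * Pop.card := by rw [Finset.sum_const, smul_eq_mul, mul_comm]
        exact_mod_cast h2

theorem card_pop_mul {μ : Om → ℝ} (h : Law μ) {Pop : Finset (Sym2 (Fin N))}
    {E : Om → Finset (Sym2 (Fin N))} {ϑ n : ℝ} (hϑ : ∀ f ∈ Pop, ϑ ≤ prE μ E f)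
    (hn : ∀ ω, μ ω ≠ 0 → ((E ω).card : ℝ) ≤ n) : (Pop.card : ℝ) * ϑ ≤ n := by
  calc (Pop.card : ℝ) * ϑ = ∑ _f ∈ Pop, ϑ := by rw [Finset.sum_const, nsmul_eq_mul]
    _ ≤ ∑ f ∈ Pop, prE μ E f := Finset.sum_le_sum hϑ
    _ ≤ ∑ f, prE μ E f := Finset.sum_le_sum_of_subset_of_nonneg (Finset.subset_univ _)
          (fun e _ _ => prE_nonneg h E e)
    _ = ex1 μ (fun ω => ((E ω).card : ℝ)) := sum_prE μ E
    _ ≤ ex1 μ (fun _ => n) := ex1_mono h hn
    _ = n := ex1_const h n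

end C0g
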