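import Pool.Agent.W_c0q2_h20.Iface

/-!
# MP_c0ce05_co, Q2 (proofs row 518), section 2: closures

`Ri q i` = weight of the `i`-th vertex, `Rp q b = Π_{i < b} Ri q i`. A closure of `S` in the family
`C` is a set `B ⊇ S`, contained in a member of `C`, with `cntS C B * Rp q |B|` maximal.
-/

set_option autoImplicit false

namespace C0g

open scoped Classical
open C0lo C0st C0q2

variable {N : ℕ}

/-- `ρ q / min i (q - i)` for `0 < i < q`, `ρ q` for `i = 0`; `ρ = 10 / ε ^ 2`, `ε = 1/200000` -/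
noncomputable def Ri (q i : ℕ) : ℝ :=
  if i = 0 then 4 * 10 ^ 11 * (q : ℝ) else 4 * 10 ^ 11 * (q : ℝ) / ((min i (q - i) : ℕ) : ℝ)

/-- the product of the first `b` weights -/
noncomputable def Rp (q b : ℕ) : ℝ := ∏ i ∈ Finset.range b, Ri q i

/-- `B` is a closure of `S` in the family `C` -/
structure Clo (q : ℕ) (C : Finset (Finset (Fin N))) (S B : Finset (Fin N)) : Prop where
  /-- it contains `S` -/
  sub : S ⊆ B
  /-- it is contained in a member of the family -/
  ne : (pinS C B).Nonempty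
  /-- maximality -/
  max : ∀ B', S ⊆ B' → (cntS C B' : ℝ) * Rp q B'.card ≤ cntS C B * Rp q B.card

/-- Proof: `min i (q - i) ≤ q`, and it is at least `1` for `0 < i < q`. -/
theorem one_le_Ri {q i : ℕ} (h : i < q) : 1 ≤ Ri q i := by
  have hq : (1 : ℝ) ≤ (q : ℝ) := by exact_mod_cast (by omega : 1 ≤ q)
  unfold Ri
  by_cases h0 : i = 0
  · rw [if_pos h0]
    linarith
  · rw [if_neg h0]
    have h1 : 1 ≤ min i (q - i) := le_min (by omega) (by omega)
    have h2 : min i (q - i) ≤ q := (min_le_left _ _).trans h.le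
    have h1' : (0 : ℝ) < ((min i (q - i) : ℕ) : ℝ) := by exact_mod_cast h1
    have h2' : ((min i (q - i) : ℕ) : ℝ) ≤ (q : ℝ) := by exact_mod_cast h2
    rw [le_div_iff₀ h1']
    linarith

private theorem Clo_succ (q b : ℕ) : Rp q (b + 1) = Rp q b * Ri q b := by
  unfold Rp
  rw [Finset.prod_range_succ]

/-- Proof: product of factors `≥ 1`. -/
theorem Rp_pos {q b : ℕ} (h : b ≤ q) : 1 ≤ Rp q b := by
  induction b with
  | zero =>
    unfold Rp
    rw [Finset.prod_range_zero]
  | succ b ih =>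
    rw [Clo_succ]
    have h1 := ih (by omega)
    have h2 := one_le_Ri (q := q) (i := b) (by omega)
    nlinarith

/-- Proof: `Finset.prod_range_add_one`-type induction, factors `≥ 1` (`one_le_Ri`). -/
theorem Rp_mono {q b b' : ℕ} (h : b ≤ b') (h' : b' ≤ q) : Rp q b ≤ Rp q b' := by
  induction b', h using Nat.le_induction with
  | base => exact le_rfl
  | succ n hn ih =>
    have h1 := ih (by omega)
    have h2 := one_le_Ri (q := q) (i := n) (by omega)
    have h3 := Rp_pos (q := q) (b := n) (by omega)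
    rw [Clo_succ]
    nlinarith

/-- A closure exists. Proof: maximise `cntS C B * Rp q B.card` over the nonempty finite set of
`B` with `S ⊆ B` and `(pinS C B).Nonempty` (`S` is one); for the other `B' ⊇ S` the count is `0`,
and the value at the maximiser is `≥ 0` (all members of the family have `q` elements, so
`B.card ≤ q` and `Rp ≥ 1 > 0`). -/
theorem Clo.exists {q : ℕ} {C : Finset (Finset (Fin N))} (hC : ∀ A ∈ C, A.card = q)
    {S : Finset (Fin N)} (hS : (pinS C S).Nonempty) : ∃ B, Clo q C S B := by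
  have hne : ((Finset.univ : Finset (Finset (Fin N))).filter
      (fun B => S ⊆ B ∧ (pinS C B).Nonempty)).Nonempty :=
    ⟨S, Finset.mem_filter.2 ⟨Finset.mem_univ _, subset_rfl, hS⟩⟩
  obtain ⟨B, hB, hmax⟩ := Finset.exists_max_image _
    (fun B : Finset (Fin N) => (cntS C B : ℝ) * Rp q B.card) hne
  rw [Finset.mem_filter] at hB
  refine ⟨B, hB.2.1, hB.2.2, fun B' hB' => ?_⟩
  by_cases h : (pinS C B').Nonempty
  · exact hmax B' (Finset.mem_filter.2 ⟨Finset.mem_univ _, hB', h⟩)
  · have h0 : cntS C B' = 0 := by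
      unfold cntS
      rw [Finset.not_nonempty_iff_eq_empty.1 h, Finset.card_empty]
    obtain ⟨A, hA⟩ := hB.2.2
    rw [mem_pinS] at hA
    have h1 : B.card ≤ q := by
      rw [← hC A hA.1]
      exact Finset.card_le_card hA.2
    have h2 := Rp_pos h1
    rw [h0, Nat.cast_zero, zero_mul]
    exact mul_nonneg (Nat.cast_nonneg _) (by linarith)

/-- Proof: `B ⊆ A` for some `A ∈ C`. -/
theorem Clo.card_le {q : ℕ} {C : Finset (Finset (Fin N))} (hC : ∀ A ∈ C, A.card = q)
    {S B : Finset (Fin N)} (h : Clo q C S B) : B.card ≤ q := by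
  obtain ⟨A, hA⟩ := h.ne
  rw [mem_pinS] at hA
  rw [← hC A hA.1]
  exact Finset.card_le_card hA.2

/-- The price of a closure. Proof: `max` with `B' = S`, `1 ≤ Rp q |S|` (if `cntS C S ≠ 0` then
`|S| ≤ |B| ≤ q`), `Rp q |B| ≤ Rp q q`. -/
theorem Clo.ent {q : ℕ} {C : Finset (Finset (Fin N))} (hC : ∀ A ∈ C, A.card = q)
    {S B : Finset (Fin N)} (h : Clo q C S B) : (cntS C S : ℝ) ≤ cntS C B * Rp q q := by
  have h1 := h.max S subset_rfl
  have h2 := h.card_le hC
  have h3 : S.card ≤ q := (Finset.card_le_card h.sub).trans h2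
  have h4 := Rp_pos h3
  have h5 := Rp_mono h2 le_rfl
  have h6 : (0 : ℝ) ≤ (cntS C S : ℝ) := Nat.cast_nonneg _
  have h7 : (0 : ℝ) ≤ (cntS C B : ℝ) := Nat.cast_nonneg _
  calc (cntS C S : ℝ) = cntS C S * 1 := (mul_one _).symm
    _ ≤ cntS C S * Rp q S.card := mul_le_mul_of_nonneg_left h4 h6
    _ ≤ cntS C B * Rp q B.card := h1
    _ ≤ cntS C B * Rp q q := mul_le_mul_of_nonneg_left h5 h7

/-- Proof: `max` with `B' = insert x B`, `Rp q (b + 1) = Rp q b * Ri q b`, cancel `Rp q b > 0`. -/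
theorem Clo.one {q : ℕ} {C : Finset (Finset (Fin N))} (hC : ∀ A ∈ C, A.card = q)
    {S B : Finset (Fin N)} (h : Clo q C S B) {x : Fin N} (hx : x ∉ B) :
    (cntS C (insert x B) : ℝ) * Ri q B.card ≤ cntS C B := by
  have h1 := h.max (insert x B) (h.sub.trans (Finset.subset_insert _ _))
  rw [Finset.card_insert_of_notMem hx, Clo_succ] at h1
  have h2 := Rp_pos (h.card_le hC)
  refine le_of_mul_le_mul_right ?_ (lt_of_lt_of_le zero_lt_one h2)
  linarith

/-- Proof: `max` with `B' = insert x (insert y B)`, `Rp q (b + 2) = Rp q b * Ri q b * Ri q (b + 1)`,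
cancel `Rp q b > 0`. -/
theorem Clo.two {q : ℕ} {C : Finset (Finset (Fin N))} (hC : ∀ A ∈ C, A.card = q)
    {S B : Finset (Fin N)} (h : Clo q C S B) {x y : Fin N} (hx : x ∉ B) (hy : y ∉ B)
    (hxy : x ≠ y) :
    (cntS C (insert x (insert y B)) : ℝ) * (Ri q B.card * Ri q (B.card + 1)) ≤ cntS C B := by
  have h1 := h.max (insert x (insert y B))
    (h.sub.trans ((Finset.subset_insert _ _).trans (Finset.subset_insert _ _)))
  have hx' : x ∉ insert y B := by
    rw [Finset.mem_insert]
    rintro (h3 | h3)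
    · exact hxy h3
    · exact hx h3
  rw [Finset.card_insert_of_notMem hx', Finset.card_insert_of_notMem hy, Clo_succ,
    Clo_succ] at h1
  have h2 := Rp_pos (h.card_le hC)
  refine le_of_mul_le_mul_right ?_ (lt_of_lt_of_le zero_lt_one h2)
  linarith

end C0g
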