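import Pool.Agent.W_c0q2_h80.Un

/-!
# MP_c0ce05_co, Q2 (proofs row 518), section 1: inequality (G)

`G_law`: for a law `μ` on the leaves and `U ω ⊆ E ω`
`H(μ) ≤ (log Λ) / m + E(- log a) - E gain(U, E) + (m - 1) (ovl / 2 + g0 crs) + g0 ppl`.
`G_fam`: the same for the uniform law on a family `C` of leaves, with `H = log₂ |C|`.
-/

set_option autoImplicit false

namespace C0g

open scoped Classical
open C0lo C0st C0q2

variable {N : ℕ} {Om : Type} [Fintype Om]

/-- the probability of `e ∈ U ω` -/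
noncomputable def prE (μ : Om → ℝ) (U : Om → Finset (Sym2 (Fin N))) (e : Sym2 (Fin N)) : ℝ :=
  ex1 μ (fun ω => if e ∈ U ω then 1 else 0)

/-- expected overlap of two independent copies of `U` -/
noncomputable def ovl (μ : Om → ℝ) (U : Om → Finset (Sym2 (Fin N))) : ℝ := ∑ e, prE μ U e ^ 2

/-- expected number of links from `U ω` to `Q ω'` with target not in `Pop` -/
noncomputable def crs (P : GP N) (Pop : Finset (Sym2 (Fin N))) (μ : Om → ℝ)
    (U Q : Om → Finset (Sym2 (Fin N))) : ℝ :=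
  ∑ d ∈ P.db.filter (fun d => d.2 ∉ Pop), prE μ U d.1 * prE μ Q d.2

/-- expected number of links from `U ω` with target in `Pop` -/
noncomputable def ppl (P : GP N) (Pop : Finset (Sym2 (Fin N))) (μ : Om → ℝ)
    (U : Om → Finset (Sym2 (Fin N))) : ℝ :=
  ∑ d ∈ P.db.filter (fun d => d.2 ∈ Pop), prE μ U d.1

theorem card_inter_eq (A B : Finset (Sym2 (Fin N))) :
    ((A ∩ B).card : ℝ) = ∑ e, (if e ∈ A then (1 : ℝ) else 0) * (if e ∈ B then (1 : ℝ) else 0) := by
  have h1 : ∀ e : Sym2 (Fin N), (if e ∈ A then (1 : ℝ) else 0) * (if e ∈ B then (1 : ℝ) else 0) =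
      if e ∈ A ∩ B then (1 : ℝ) else 0 := by
    intro e
    by_cases hA : e ∈ A <;> by_cases hB : e ∈ B <;> simp [hA, hB]
  rw [Finset.sum_congr rfl (fun e _ => h1 e), Finset.sum_boole]
  congr 2
  ext e
  simp

theorem lk_sdiff_eq (P : GP N) (Pop A B : Finset (Sym2 (Fin N))) :
    (lk P A (B \ Pop) : ℝ) = ∑ d ∈ P.db.filter (fun d => d.2 ∉ Pop),
      (if d.1 ∈ A then (1 : ℝ) else 0) * (if d.2 ∈ B then (1 : ℝ) else 0) := by
  have h1 : ∀ d : Sym2 (Fin N) × Sym2 (Fin N),
      (if d.1 ∈ A then (1 : ℝ) else 0) * (if d.2 ∈ B then (1 : ℝ) else 0) =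
      if d.1 ∈ A ∧ d.2 ∈ B then (1 : ℝ) else 0 := by
    intro d
    by_cases hA : d.1 ∈ A <;> by_cases hB : d.2 ∈ B <;> simp [hA, hB]
  rw [Finset.sum_congr rfl (fun e _ => h1 e), Finset.sum_boole]
  unfold lk
  congr 2
  ext d
  simp only [Finset.mem_filter, Finset.mem_sdiff]
  tauto

theorem lkp_eq (P : GP N) (Pop A : Finset (Sym2 (Fin N))) :
    (lkp P Pop A : ℝ) = ∑ d ∈ P.db.filter (fun d => d.2 ∈ Pop),
      (if d.1 ∈ A then (1 : ℝ) else 0) := by
  rw [Finset.sum_boole]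
  unfold lkp
  congr 2
  ext d
  simp only [Finset.mem_filter]
  tauto

/-- Expected logarithm of the weight of the union of `m` independent leaves. -/
theorem ex_wt {P : GP N} {Dl : ℕ} (hV : P.Valid Dl) {μ : Om → ℝ} (h : Law μ) (m : ℕ)
    (Pop : Finset (Sym2 (Fin N))) {U E : Om → Finset (Sym2 (Fin N))}
    (hU : ∀ ω, μ ω ≠ 0 → U ω ⊆ E ω) (hE : ∀ ω, μ ω ≠ 0 → Disjoint (E ω) P.K) :
    (m : ℝ) * ex1 μ (fun ω => gain P (U ω) (E ω)) -
        (m : ℝ) * ((m : ℝ) - 1) * (ovl μ U / 2 + g0 * crs P Pop μ U E) -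
        (m : ℝ) * (g0 * ppl P Pop μ U) ≤
      exm μ m (fun W => Real.logb 2 (wtP P (Finset.univ.biUnion (fun i => E (W i))))) := by
  have h1 := exm_mono h (m := m)
    (F := fun W => ∑ i, gain P (U (W i)) (E (W i)) - ∑ i, ∑ j, (if i = j then 0 else
        (((U (W i) ∩ U (W j)).card : ℝ) / 2 + g0 * (lk P (U (W i)) (E (W j) \ Pop) : ℝ))) -
        g0 * ∑ i, (lkp P Pop (U (W i)) : ℝ))
    (G := fun W => Real.logb 2 (wtP P (Finset.univ.biUnion (fun i => E (W i)))))
    (fun W hW => logb_wtP_union hV Pop (U := fun i => U (W i)) (Q := fun i => E (W i))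
      (fun i => hU _ (hW i)) (fun i => hE _ (hW i)))
  refine le_trans (le_of_eq ?_) h1
  rw [exm_sub, exm_sub, exm_sum, exm_mul, exm_sum, exm_sum]
  have h2 : ∀ i ∈ (Finset.univ : Finset (Fin m)),
      exm μ m (fun W => gain P (U (W i)) (E (W i))) = ex1 μ (fun ω => gain P (U ω) (E ω)) :=
    fun i _ => exm_one h i (fun ω => gain P (U ω) (E ω))
  have h3 : ∀ i ∈ (Finset.univ : Finset (Fin m)),
      exm μ m (fun W => (lkp P Pop (U (W i)) : ℝ)) = ppl P Pop μ U := by
    intro i _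
    rw [exm_one h i (fun ω => (lkp P Pop (U ω) : ℝ))]
    have h4 : (fun ω => (lkp P Pop (U ω) : ℝ)) = fun ω => ∑ d ∈ P.db.filter (fun d => d.2 ∈ Pop),
        (if d.1 ∈ U ω then (1 : ℝ) else 0) := by
      funext ω
      exact lkp_eq P Pop (U ω)
    rw [h4, ex1_sum]
    rfl
  have h5 : ∀ i ∈ (Finset.univ : Finset (Fin m)), exm μ m (fun W => ∑ j, (if i = j then 0 else
        (((U (W i) ∩ U (W j)).card : ℝ) / 2 + g0 * (lk P (U (W i)) (E (W j) \ Pop) : ℝ)))) =
      ((m : ℝ) - 1) * (ovl μ U / 2 + g0 * crs P Pop μ U E) := by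
    intro i _
    rw [exm_sum]
    have h6 : ∀ j ∈ (Finset.univ : Finset (Fin m)), exm μ m (fun W => (if i = j then 0 else
        (((U (W i) ∩ U (W j)).card : ℝ) / 2 + g0 * (lk P (U (W i)) (E (W j) \ Pop) : ℝ)))) =
        if i = j then 0 else (ovl μ U / 2 + g0 * crs P Pop μ U E) := by
      intro j _
      by_cases hij : i = j
      · simp only [if_pos hij]
        exact exm_const h m 0
      · simp only [if_neg hij]
        have h7 : (fun W : Fin m → Om => ((U (W i) ∩ U (W j)).card : ℝ) / 2 +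
            g0 * (lk P (U (W i)) (E (W j) \ Pop) : ℝ)) =
            fun W => (1 / 2 : ℝ) * (∑ e, (if e ∈ U (W i) then (1 : ℝ) else 0) *
              (if e ∈ U (W j) then (1 : ℝ) else 0)) +
            g0 * ∑ d ∈ P.db.filter (fun d => d.2 ∉ Pop),
              (if d.1 ∈ U (W i) then (1 : ℝ) else 0) * (if d.2 ∈ E (W j) then (1 : ℝ) else 0) := by
          funext W
          rw [card_inter_eq, lk_sdiff_eq]
          ring
        rw [h7, exm_add, exm_mul, exm_mul, exm_sum, exm_sum]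
        have h8 : ∀ e ∈ (Finset.univ : Finset (Sym2 (Fin N))),
            exm μ m (fun W => (if e ∈ U (W i) then (1 : ℝ) else 0) *
              (if e ∈ U (W j) then (1 : ℝ) else 0)) = prE μ U e ^ 2 := by
          intro e _
          rw [exm_two_mul h hij (fun ω => if e ∈ U ω then (1 : ℝ) else 0)
            (fun ω => if e ∈ U ω then (1 : ℝ) else 0), pow_two]
          rfl
        have h9 : ∀ d ∈ P.db.filter (fun d => d.2 ∉ Pop),
            exm μ m (fun W => (if d.1 ∈ U (W i) then (1 : ℝ) else 0) *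
              (if d.2 ∈ E (W j) then (1 : ℝ) else 0)) = prE μ U d.1 * prE μ E d.2 := by
          intro d _
          rw [exm_two_mul h hij (fun ω => if d.1 ∈ U ω then (1 : ℝ) else 0)
            (fun ω => if d.2 ∈ E ω then (1 : ℝ) else 0)]
          rfl
        rw [Finset.sum_congr rfl h8, Finset.sum_congr rfl h9]
        unfold ovl crs
        ring
    rw [Finset.sum_congr rfl h6, Finset.sum_ite, Finset.sum_const_zero, zero_add,
      Finset.sum_const, nsmul_eq_mul]
    have h10 : (((Finset.univ : Finset (Fin m)).filter (fun j => ¬ i = j)).card : ℝ) =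
        (m : ℝ) - 1 := by
      have h11 := Finset.card_filter_add_card_filter_not
        (s := (Finset.univ : Finset (Fin m))) (fun j => i = j)
      have h12 : ((Finset.univ : Finset (Fin m)).filter (fun j => i = j)).card = 1 := by
        rw [Finset.filter_eq Finset.univ i, if_pos (Finset.mem_univ i), Finset.card_singleton]
      rw [h12, Finset.card_univ, Fintype.card_fin] at h11
      have h13 : (1 : ℝ) + (((Finset.univ : Finset (Fin m)).filter (fun j => ¬ i = j)).card : ℝ) =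
          (m : ℝ) := by exact_mod_cast h11
      linarith
    rw [h10]
  rw [Finset.sum_congr rfl h2, Finset.sum_congr rfl h3, Finset.sum_congr rfl h5,
    Finset.sum_const, Finset.sum_const, Finset.sum_const, Finset.card_univ, Fintype.card_fin,
    nsmul_eq_mul, nsmul_eq_mul, nsmul_eq_mul]
  ring

/-- Inequality (G) for a law on the leaves. -/
theorem G_law {P : GP N} {Dl : ℕ} (hV : P.Valid Dl) {μ : Om → ℝ} (h : Law μ) {m : ℕ} (hm : 0 < m)
    (Pop : Finset (Sym2 (Fin N))) {U E : Om → Finset (Sym2 (Fin N))}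
    (hU : ∀ ω, μ ω ≠ 0 → U ω ⊆ E ω) (hE : ∀ ω, μ ω ≠ 0 → Disjoint (E ω) P.K)
    {a : Om → ℝ} (ha : ∀ ω, 0 ≤ a ω) (ha' : ∀ ω, μ ω ≠ 0 → 0 < a ω) {Λ : ℝ} (hΛ : 0 < Λ)
    (hs : ∑ W : Fin m → Om, (∏ i, a (W i)) *
      wtP P (Finset.univ.biUnion (fun i => E (W i))) ≤ Λ) :
    ex1 μ (fun ω => - Real.logb 2 (μ ω)) ≤
      Real.logb 2 Λ / m + ex1 μ (fun ω => - Real.logb 2 (a ω)) -
        ex1 μ (fun ω => gain P (U ω) (E ω)) +
        ((m : ℝ) - 1) * (ovl μ U / 2 + g0 * crs P Pop μ U E) + g0 * ppl P Pop μ U := by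
  have h1 := gibbs h (m := m) ha ha' (w := fun W => wtP P (Finset.univ.biUnion
    (fun i => E (W i)))) (fun W => wtP_nonneg P _)
    (fun W hW => wtP_pos (by
      rw [Finset.disjoint_biUnion_left]
      exact fun i _ => hE _ (hW i))) hΛ hs
  have h2 := ex_wt hV h m Pop hU hE
  have hm' : (0 : ℝ) < m := by exact_mod_cast hm
  have h3 : ex1 μ (fun ω => Real.logb 2 (a ω) - Real.logb 2 (μ ω)) =
      ex1 μ (fun ω => - Real.logb 2 (μ ω)) - ex1 μ (fun ω => - Real.logb 2 (a ω)) := by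
    rw [← ex1_sub]
    congr 1
    funext ω
    ring
  rw [h3] at h1
  have h4 : (m : ℝ) * (ex1 μ (fun ω => - Real.logb 2 (μ ω)) -
      ex1 μ (fun ω => - Real.logb 2 (a ω)) + ex1 μ (fun ω => gain P (U ω) (E ω)) -
      ((m : ℝ) - 1) * (ovl μ U / 2 + g0 * crs P Pop μ U E) - g0 * ppl P Pop μ U) ≤
      Real.logb 2 Λ := by
    nlinarith [h1, h2]
  rw [← le_div_iff₀' hm'] at h4
  linarith

/-- average over a family -/
noncomputable def av {α : Type} (C : Finset α) (f : α → ℝ) : ℝ := (∑ A ∈ C, f A) / (C.card : ℝ)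

/-- the uniform law on a family -/
noncomputable def unif (C : Finset Om) : Om → ℝ := fun ω => if ω ∈ C then 1 / (C.card : ℝ) else 0

theorem unif_law {C : Finset Om} (hC : C.Nonempty) : Law (unif C) := by
  have hc : (0 : ℝ) < C.card := by exact_mod_cast hC.card_pos
  refine ⟨fun ω => ?_, ?_⟩
  · unfold unif
    split_ifs
    · positivity
    · exact le_rfl
  · unfold unif
    rw [Finset.sum_ite_mem, Finset.univ_inter, Finset.sum_const, nsmul_eq_mul]
    field_simp

theorem unif_ne {C : Finset Om} {ω : Om} (h : unif C ω ≠ 0) : ω ∈ C := by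
  by_contra hω
  apply h
  unfold unif
  rw [if_neg hω]

theorem ex1_unif (C : Finset Om) (f : Om → ℝ) : ex1 (unif C) f = av C f := by
  unfold ex1 unif av
  have h1 : ∀ ω, (if ω ∈ C then 1 / (C.card : ℝ) else 0) * f ω =
      if ω ∈ C then f ω / C.card else 0 := by
    intro ω
    split_ifs
    · ring
    · ring
  rw [Finset.sum_congr rfl (fun ω _ => h1 ω), Finset.sum_ite_mem, Finset.univ_inter,
    Finset.sum_div]

theorem ent_unif {C : Finset Om} (hC : C.Nonempty) :
    ex1 (unif C) (fun ω => - Real.logb 2 (unif C ω)) = Real.logb 2 C.card := by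
  have hc : (0 : ℝ) < C.card := by exact_mod_cast hC.card_pos
  rw [ex1_unif]
  unfold av
  have h1 : ∀ ω ∈ C, - Real.logb 2 (unif C ω) = Real.logb 2 C.card := by
    intro ω hω
    unfold unif
    rw [if_pos hω, one_div, Real.logb_inv, neg_neg]
  rw [Finset.sum_congr rfl h1, Finset.sum_const, nsmul_eq_mul]
  field_simp

/-- Inequality (G) for a family of leaves with the uniform law. -/
theorem G_fam {P : GP N} {Dl : ℕ} (hV : P.Valid Dl) {C : Finset Om} (hC : C.Nonempty) {m : ℕ}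
    (hm : 0 < m) (Pop : Finset (Sym2 (Fin N))) {U E : Om → Finset (Sym2 (Fin N))}
    (hU : ∀ ω ∈ C, U ω ⊆ E ω) (hE : ∀ ω ∈ C, Disjoint (E ω) P.K)
    {a : Om → ℝ} (ha : ∀ ω, 0 ≤ a ω) (ha' : ∀ ω ∈ C, 0 < a ω) {Λ : ℝ} (hΛ : 0 < Λ)
    (hs : ∑ W : Fin m → Om, (∏ i, a (W i)) *
      wtP P (Finset.univ.biUnion (fun i => E (W i))) ≤ Λ) :
    Real.logb 2 C.card ≤
      Real.logb 2 Λ / m + av C (fun ω => - Real.logb 2 (a ω)) -
        av C (fun ω => gain P (U ω) (E ω)) +
        ((m : ℝ) - 1) * (ovl (unif C) U / 2 + g0 * crs P Pop (unif C) U E) +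
        g0 * ppl P Pop (unif C) U := by
  have h1 := G_law hV (unif_law hC) hm Pop (U := U) (E := E)
    (fun ω hω => hU ω (unif_ne hω)) (fun ω hω => hE ω (unif_ne hω)) ha
    (fun ω hω => ha' ω (unif_ne hω)) hΛ hs
  rw [ent_unif hC, ex1_unif, ex1_unif] at h1
  exact h1

theorem prE_unif (C : Finset Om) (U : Om → Finset (Sym2 (Fin N))) (e : Sym2 (Fin N)) :
    prE (unif C) U e = ((C.filter (fun ω => e ∈ U ω)).card : ℝ) / (C.card : ℝ) := by
  unfold prE
  rw [ex1_unif]
  unfold av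
  rw [Finset.sum_boole]

end C0g
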