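import Pool.Agent.W_c0q2_h80.Sys

/-!
# MP_c0ce05_co, Q2 (proofs row 518), section 1: laws, independent leaves, Gibbs inequality

`ex1 μ f` = expectation of `f` for a law `μ` on a finite type, `exm μ m F` = expectation over `m`
independent leaves. `gibbs`: if `Σ_W w W ≤ Λ` then `Σ_W μ(W) log₂ (w W / μ(W)) ≤ log₂ Λ`.
-/

set_option autoImplicit false

namespace C0g

open scoped Classical
open C0lo C0st C0q2

/-- expectation with respect to `μ` -/
noncomputable def ex1 {Om : Type} [Fintype Om] (μ : Om → ℝ) (f : Om → ℝ) : ℝ := ∑ ω, μ ω * f ω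

/-- expectation over `m` independent leaves -/
noncomputable def exm {Om : Type} [Fintype Om] (μ : Om → ℝ) (m : ℕ) (F : (Fin m → Om) → ℝ) : ℝ :=
  ∑ W : Fin m → Om, (∏ i, μ (W i)) * F W

/-- a law on a finite type -/
structure Law {Om : Type} [Fintype Om] (μ : Om → ℝ) : Prop where
  /-- nonnegative -/
  nn : ∀ ω, 0 ≤ μ ω
  /-- total mass one -/
  one : ∑ ω, μ ω = 1

section

variable {Om : Type} [Fintype Om] {μ : Om → ℝ}

theorem sum_prod_eq {m : ℕ} (g : Fin m → Om → ℝ) :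
    ∑ W : Fin m → Om, ∏ i, g i (W i) = ∏ i, ∑ ω, g i ω := by
  rw [Finset.prod_univ_sum, Fintype.piFinset_univ]

theorem ex1_add (f g : Om → ℝ) : ex1 μ (fun ω => f ω + g ω) = ex1 μ f + ex1 μ g := by
  unfold ex1
  rw [← Finset.sum_add_distrib]
  exact Finset.sum_congr rfl (fun ω _ => by ring)

theorem ex1_sub (f g : Om → ℝ) : ex1 μ (fun ω => f ω - g ω) = ex1 μ f - ex1 μ g := by
  unfold ex1
  rw [← Finset.sum_sub_distrib]
  exact Finset.sum_congr rfl (fun ω _ => by ring)

theorem ex1_mul (c : ℝ) (f : Om → ℝ) : ex1 μ (fun ω => c * f ω) = c * ex1 μ f := by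
  unfold ex1
  rw [Finset.mul_sum]
  exact Finset.sum_congr rfl (fun ω _ => by ring)

theorem ex1_sum {κ : Type} (T : Finset κ) (F : κ → Om → ℝ) :
    ex1 μ (fun ω => ∑ t ∈ T, F t ω) = ∑ t ∈ T, ex1 μ (F t) := by
  unfold ex1
  rw [Finset.sum_comm]
  exact Finset.sum_congr rfl (fun ω _ => by rw [Finset.mul_sum])

theorem ex1_mono (h : Law μ) {f g : Om → ℝ} (hfg : ∀ ω, μ ω ≠ 0 → f ω ≤ g ω) :
    ex1 μ f ≤ ex1 μ g := by
  unfold ex1
  refine Finset.sum_le_sum (fun ω _ => ?_)
  by_cases h0 : μ ω = 0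
  · rw [h0, zero_mul, zero_mul]
  · exact mul_le_mul_of_nonneg_left (hfg ω h0) (h.nn ω)

theorem ex1_const (h : Law μ) (c : ℝ) : ex1 μ (fun _ => c) = c := by
  unfold ex1
  rw [← Finset.sum_mul, h.one, one_mul]

theorem exm_add {m : ℕ} (F G : (Fin m → Om) → ℝ) :
    exm μ m (fun W => F W + G W) = exm μ m F + exm μ m G := by
  unfold exm
  rw [← Finset.sum_add_distrib]
  exact Finset.sum_congr rfl (fun ω _ => by ring)

theorem exm_sub {m : ℕ} (F G : (Fin m → Om) → ℝ) :
    exm μ m (fun W => F W - G W) = exm μ m F - exm μ m G := by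
  unfold exm
  rw [← Finset.sum_sub_distrib]
  exact Finset.sum_congr rfl (fun ω _ => by ring)

theorem exm_mul {m : ℕ} (c : ℝ) (F : (Fin m → Om) → ℝ) :
    exm μ m (fun W => c * F W) = c * exm μ m F := by
  unfold exm
  rw [Finset.mul_sum]
  exact Finset.sum_congr rfl (fun ω _ => by ring)

theorem exm_sum {m : ℕ} {κ : Type} (T : Finset κ) (F : κ → (Fin m → Om) → ℝ) :
    exm μ m (fun W => ∑ t ∈ T, F t W) = ∑ t ∈ T, exm μ m (F t) := by
  unfold exm
  rw [Finset.sum_comm]
  exact Finset.sum_congr rfl (fun ω _ => by rw [Finset.mul_sum])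

theorem exm_mono (h : Law μ) {m : ℕ} {F G : (Fin m → Om) → ℝ}
    (hFG : ∀ W : Fin m → Om, (∀ i, μ (W i) ≠ 0) → F W ≤ G W) : exm μ m F ≤ exm μ m G := by
  unfold exm
  refine Finset.sum_le_sum (fun W _ => ?_)
  by_cases h0 : ∏ i, μ (W i) = 0
  · rw [h0, zero_mul, zero_mul]
  · refine mul_le_mul_of_nonneg_left (hFG W (fun i => ?_))
      (Finset.prod_nonneg (fun i _ => h.nn _))
    exact (Finset.prod_ne_zero_iff.1 h0) i (Finset.mem_univ i)

theorem exm_const (h : Law μ) (m : ℕ) (c : ℝ) : exm μ m (fun _ => c) = c := by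
  unfold exm
  rw [← Finset.sum_mul, sum_prod_eq (fun _ => μ), Finset.prod_congr rfl (fun _ _ => h.one),
    Finset.prod_const_one, one_mul]

/-- Expectation of a function of one leaf. -/
theorem exm_one (h : Law μ) {m : ℕ} (i : Fin m) (f : Om → ℝ) :
    exm μ m (fun W => f (W i)) = ex1 μ f := by
  unfold exm ex1
  have h1 : ∀ W : Fin m → Om, (∏ k, μ (W k)) * f (W i) =
      ∏ k, (fun (k : Fin m) (ω : Om) => μ ω * (if k = i then f ω else 1)) k (W k) := by
    intro W
    simp only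
    rw [Finset.prod_mul_distrib, Finset.prod_ite_eq' Finset.univ i (fun k => f (W k)),
      if_pos (Finset.mem_univ i)]
  rw [Finset.sum_congr rfl (fun W _ => h1 W),
    sum_prod_eq (fun (k : Fin m) (ω : Om) => μ ω * (if k = i then f ω else 1))]
  rw [← Finset.mul_prod_erase Finset.univ _ (Finset.mem_univ i)]
  have h2 : ∏ k ∈ Finset.univ.erase i, ∑ ω, μ ω * (if k = i then f ω else 1) = 1 := by
    refine Finset.prod_eq_one (fun k hk => ?_)
    have h3 : k ≠ i := (Finset.mem_erase.1 hk).1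
    simp only [if_neg h3, mul_one]
    exact h.one
  rw [h2, mul_one]
  simp only [if_true]

/-- Expectation of a product of functions of two different leaves. -/
theorem exm_two_mul (h : Law μ) {m : ℕ} {i j : Fin m} (hij : i ≠ j) (f g : Om → ℝ) :
    exm μ m (fun W => f (W i) * g (W j)) = ex1 μ f * ex1 μ g := by
  unfold exm ex1
  have h1 : ∀ W : Fin m → Om, (∏ k, μ (W k)) * (f (W i) * g (W j)) =
      ∏ k, (fun (k : Fin m) (ω : Om) => μ ω * ((if k = i then f ω else 1) *
        (if k = j then g ω else 1))) k (W k) := by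
    intro W
    simp only
    rw [Finset.prod_mul_distrib, Finset.prod_mul_distrib,
      Finset.prod_ite_eq' Finset.univ i (fun k => f (W k)), if_pos (Finset.mem_univ i),
      Finset.prod_ite_eq' Finset.univ j (fun k => g (W k)), if_pos (Finset.mem_univ j)]
  rw [Finset.sum_congr rfl (fun W _ => h1 W),
    sum_prod_eq (fun (k : Fin m) (ω : Om) => μ ω * ((if k = i then f ω else 1) *
        (if k = j then g ω else 1)))]
  rw [← Finset.mul_prod_erase Finset.univ _ (Finset.mem_univ i)]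
  have hj : j ∈ Finset.univ.erase i := Finset.mem_erase.2 ⟨hij.symm, Finset.mem_univ j⟩
  rw [← Finset.mul_prod_erase _ _ hj]
  have h2 : ∏ k ∈ (Finset.univ.erase i).erase j, ∑ ω, μ ω * ((if k = i then f ω else 1) *
      (if k = j then g ω else 1)) = 1 := by
    refine Finset.prod_eq_one (fun k hk => ?_)
    have h3 := Finset.mem_erase.1 hk
    have h4 := Finset.mem_erase.1 h3.2
    simp only [if_neg h3.1, if_neg h4.1, mul_one]
    exact h.one
  rw [h2, mul_one]
  simp only [if_true, if_neg hij, if_neg hij.symm, mul_one, one_mul]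

/-- The Gibbs inequality for a law on a finite type. -/
theorem gibbs_aux {X : Type} [Fintype X] {ν : X → ℝ} (hν0 : ∀ x, 0 ≤ ν x) (hν1 : ∑ x, ν x = 1)
    {w : X → ℝ} (hw : ∀ x, 0 ≤ w x) (hw1 : ∀ x, ν x ≠ 0 → 0 < w x) {Λ : ℝ} (hΛ : 0 < Λ)
    (hs : ∑ x, w x ≤ Λ) :
    ∑ x, ν x * (Real.logb 2 (w x) - Real.logb 2 (ν x)) ≤ Real.logb 2 Λ := by
  have hl2 : 0 < Real.log 2 := Real.log_pos (by norm_num)
  have h1 : ∀ x, ν x * (Real.log (w x) - Real.log (ν x) - Real.log Λ) ≤ w x / Λ - ν x := by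
    intro x
    by_cases h0 : ν x = 0
    · rw [h0, zero_mul, sub_zero]
      exact div_nonneg (hw x) hΛ.le
    · have hνp : 0 < ν x := lt_of_le_of_ne (hν0 x) (Ne.symm h0)
      have hwp := hw1 x h0
      have h2 : Real.log (w x) - Real.log (ν x) - Real.log Λ = Real.log (w x / (ν x * Λ)) := by
        rw [Real.log_div hwp.ne' (mul_pos hνp hΛ).ne', Real.log_mul hνp.ne' hΛ.ne']
        ring
      rw [h2]
      have h3 := Real.log_le_sub_one_of_pos (div_pos hwp (mul_pos hνp hΛ))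
      calc ν x * Real.log (w x / (ν x * Λ)) ≤ ν x * (w x / (ν x * Λ) - 1) :=
            mul_le_mul_of_nonneg_left h3 hνp.le
        _ = w x / Λ - ν x := by
            field_simp
  have h2 : ∑ x, ν x * (Real.log (w x) - Real.log (ν x) - Real.log Λ) ≤ 0 := by
    refine (Finset.sum_le_sum (fun x _ => h1 x)).trans ?_
    rw [Finset.sum_sub_distrib, ← Finset.sum_div, hν1, sub_nonpos, div_le_one hΛ]
    exact hs
  have h3 : ∑ x, ν x * (Real.log (w x) - Real.log (ν x) - Real.log Λ) =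
      ∑ x, ν x * (Real.log (w x) - Real.log (ν x)) - Real.log Λ := by
    have h4 : ∀ x, ν x * (Real.log (w x) - Real.log (ν x) - Real.log Λ) =
        ν x * (Real.log (w x) - Real.log (ν x)) - ν x * Real.log Λ := fun x => by ring
    rw [Finset.sum_congr rfl (fun x _ => h4 x), Finset.sum_sub_distrib, ← Finset.sum_mul, hν1,
      one_mul]
  rw [h3, sub_nonpos] at h2
  have h5 : ∑ x, ν x * (Real.logb 2 (w x) - Real.logb 2 (ν x)) =
      (∑ x, ν x * (Real.log (w x) - Real.log (ν x))) / Real.log 2 := by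
    rw [Finset.sum_div]
    refine Finset.sum_congr rfl (fun x _ => ?_)
    unfold Real.logb
    ring
  rw [h5]
  unfold Real.logb
  exact div_le_div_of_nonneg_right h2 hl2.le

/-- Gibbs inequality for `m` independent leaves with law `μ`, prior `a` and weights `w`. -/
theorem gibbs (h : Law μ) {m : ℕ} {a : Om → ℝ} (ha : ∀ ω, 0 ≤ a ω)
    (ha' : ∀ ω, μ ω ≠ 0 → 0 < a ω) {w : (Fin m → Om) → ℝ} (hw : ∀ W, 0 ≤ w W)
    (hw' : ∀ W : Fin m → Om, (∀ i, μ (W i) ≠ 0) → 0 < w W) {Λ : ℝ} (hΛ : 0 < Λ)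
    (hs : ∑ W : Fin m → Om, (∏ i, a (W i)) * w W ≤ Λ) :
    (m : ℝ) * ex1 μ (fun ω => Real.logb 2 (a ω) - Real.logb 2 (μ ω)) +
      exm μ m (fun W => Real.logb 2 (w W)) ≤ Real.logb 2 Λ := by
  have h1 := gibbs_aux (ν := fun W : Fin m → Om => ∏ i, μ (W i))
    (w := fun W => (∏ i, a (W i)) * w W)
    (fun W => Finset.prod_nonneg (fun i _ => h.nn _))
    (by rw [sum_prod_eq (fun _ => μ), Finset.prod_congr rfl (fun _ _ => h.one),
          Finset.prod_const_one])
    (fun W => mul_nonneg (Finset.prod_nonneg (fun i _ => ha _)) (hw W))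
    (fun W hW => mul_pos (Finset.prod_pos (fun i _ => ha' _
      ((Finset.prod_ne_zero_iff.1 hW) i (Finset.mem_univ i))))
      (hw' W (fun i => (Finset.prod_ne_zero_iff.1 hW) i (Finset.mem_univ i)))) hΛ hs
  refine le_trans (le_of_eq ?_) h1
  have h2 : ∀ W : Fin m → Om, (∏ i, μ (W i)) * (Real.logb 2 ((∏ i, a (W i)) * w W) -
      Real.logb 2 (∏ i, μ (W i))) = (∏ i, μ (W i)) *
        ((∑ i, (Real.logb 2 (a (W i)) - Real.logb 2 (μ (W i)))) + Real.logb 2 (w W)) := by
    intro W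
    by_cases h0 : ∏ i, μ (W i) = 0
    · rw [h0, zero_mul, zero_mul]
    · have h3 : ∀ i, μ (W i) ≠ 0 := fun i => (Finset.prod_ne_zero_iff.1 h0) i (Finset.mem_univ i)
      have h4 : ∀ i, a (W i) ≠ 0 := fun i => (ha' _ (h3 i)).ne'
      rw [Real.logb_mul (Finset.prod_ne_zero_iff.2 (fun i _ => h4 i)) (hw' W h3).ne']
      rw [Real.logb_prod _ _ (fun i _ => h4 i), Real.logb_prod _ _ (fun i _ => h3 i),
        Finset.sum_sub_distrib]
      ring
  have h5 : exm μ m (fun W => (∑ i, (Real.logb 2 (a (W i)) - Real.logb 2 (μ (W i)))) +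
      Real.logb 2 (w W)) = (m : ℝ) * ex1 μ (fun ω => Real.logb 2 (a ω) - Real.logb 2 (μ ω)) +
      exm μ m (fun W => Real.logb 2 (w W)) := by
    rw [exm_add, exm_sum]
    have h6 : ∀ i ∈ (Finset.univ : Finset (Fin m)),
        exm μ m (fun W => Real.logb 2 (a (W i)) - Real.logb 2 (μ (W i))) =
        ex1 μ (fun ω => Real.logb 2 (a ω) - Real.logb 2 (μ ω)) := fun i _ =>
      exm_one h i (fun ω => Real.logb 2 (a ω) - Real.logb 2 (μ ω))
    rw [Finset.sum_congr rfl h6, Finset.sum_const, Finset.card_univ, Fintype.card_fin,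
      nsmul_eq_mul]
  rw [← h5]
  unfold exm
  exact (Finset.sum_congr rfl (fun W _ => (h2 W).symm))

end

end C0g
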