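import Pool.Agent.W_c0q2_h80.Un
import Pool.Agent.W_c0q2_h80.Clo

/-!
# MP_c0ce05_co, Q2 (proofs row 518), section 2: the numbers of (SB)
-/

set_option autoImplicit false

namespace C0g

open scoped Classical
open C0lo C0st C0q2

/-- the number of copies in the class of `(SB)` with `b = |B|`, `b + j = q` -/
noncomputable def msb (b j : ℕ) : ℕ := if b = 0 then 1 else ⌈200000 * (b : ℝ) / ((min b j : ℕ) : ℝ)⌉₊

/-- The errors of (SB) for `b, j ≥ 1`. Proof: `μ = min b j`, `m = msb b j`, `m ≥ 200000 b / μ`, so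
`b L / m ≤ μ L / 200000`; `m - 1 ≤ 200000 b / μ`; `Ri q b = ρ q / μ`, `ρ = 4 * 10 ^ 11`,
`b j ≤ μ q`, `b ≤ q ≤ 2 L`.
Overlap `(m - 1) / 2 * b j μ / (ρ q) ≤ 100000 b (b j) / (ρ q) ≤ 100000 b μ / ρ ≤ 5 * 10 ^ (-7) μ L`.
Second overlap: `0` if `j = 1`; otherwise `Ri q (b + 1) ≥ ρ` (`min (b+1) (q-b-1) ≤ q`, and it is `≥ 1`), so
it is at most `(m - 1) / 2 * (j ^ 2 / 2) * μ / (ρ q ρ) ≤ 50000 b j ^ 2 / (ρ ^ 2 q) ≤ 50000 b j / ρ ^ 2`,
`b j ≤ μ q ≤ 2 μ L`. Cross links: `b j + j (j - 1) / 2 ≤ j q`, so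
`(m - 1) g0 cr ≤ 200000 b / μ * j q * μ / (ρ q) = 200000 b j / ρ ≤ 400000 μ L / ρ = 10 ^ (-6) μ L`.
Sum `≤ (1 + .1 + .2 + .1) μ L / 200000`. -/
theorem sb_num {q b j : ℕ} {L ov cr : ℝ} (hL : 1 ≤ L) (hq : (q : ℝ) ≤ 2 * L) (hbj : b + j = q)
    (hb : 1 ≤ b) (hj : 1 ≤ j)
    (hov : ov ≤ (b : ℝ) * j / Ri q b +
      (j : ℝ) * ((j : ℝ) - 1) / 2 / (Ri q b * Ri q (b + 1)))
    (hcr : cr ≤ 1 / Ri q b * ((b : ℝ) * j + (j : ℝ) * ((j : ℝ) - 1) / 2)) :
    (b : ℝ) * L / (msb b j : ℝ) + ((msb b j : ℝ) - 1) * (ov / 2 + g0 * cr) ≤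
      3 / 200000 * (((min b j : ℕ) : ℝ) * L) := by
  have hg0 := g0_pos
  have hg1 := g0_lt
  have hb0 : b ≠ 0 := by omega
  have hMn : 1 ≤ min b j := le_min hb hj
  have hm : msb b j = ⌈200000 * (b : ℝ) / ((min b j : ℕ) : ℝ)⌉₊ := by
    unfold msb
    rw [if_neg hb0]
  have hRi : Ri q b = 4 * 10 ^ 11 * (q : ℝ) / ((min b j : ℕ) : ℝ) := by
    unfold Ri
    rw [if_neg hb0, show q - b = j by omega]
  have hM1 : (1 : ℝ) ≤ ((min b j : ℕ) : ℝ) := by exact_mod_cast hMn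
  have hMb : ((min b j : ℕ) : ℝ) ≤ (b : ℝ) := by exact_mod_cast min_le_left b j
  have hMj : ((min b j : ℕ) : ℝ) ≤ (j : ℝ) := by exact_mod_cast min_le_right b j
  have hBJ : (b : ℝ) * j ≤ ((min b j : ℕ) : ℝ) * q := by
    have h : b * j ≤ min b j * q := by
      rcases le_total b j with h | h
      · rw [min_eq_left h]
        exact Nat.mul_le_mul_left _ (by omega)
      · rw [min_eq_right h, mul_comm]
        exact Nat.mul_le_mul_left _ (by omega)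
    exact_mod_cast h
  have hQ : (b : ℝ) + j = q := by exact_mod_cast hbj
  have hb1 : (1 : ℝ) ≤ (b : ℝ) := by exact_mod_cast hb
  have hj1 : (1 : ℝ) ≤ (j : ℝ) := by exact_mod_cast hj
  have hR2 : (j : ℝ) * ((j : ℝ) - 1) / 2 / (Ri q b * Ri q (b + 1)) ≤
      (j : ℝ) * ((j : ℝ) - 1) / 2 / (Ri q b) := by
    rcases Nat.eq_or_lt_of_le hj with h | h
    · rw [← h]
      simp
    · have h1 : 1 ≤ Ri q (b + 1) := one_le_Ri (by omega)
      have h2 : 1 ≤ Ri q b := one_le_Ri (by omega)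
      refine div_le_div_of_nonneg_left ?_ (by linarith) ?_
      · have : 0 ≤ (j : ℝ) - 1 := by linarith
        positivity
      · nlinarith
  have hm1 : 200000 * (b : ℝ) / ((min b j : ℕ) : ℝ) ≤ (msb b j : ℝ) := by
    rw [hm]
    exact Nat.le_ceil _
  have hm2 : (msb b j : ℝ) < 200000 * (b : ℝ) / ((min b j : ℕ) : ℝ) + 1 := by
    rw [hm]
    exact Nat.ceil_lt_add_one (by positivity)
  rw [hRi] at hov hcr hR2
  generalize (msb b j : ℝ) = m at hm1 hm2 ⊢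
  generalize ((min b j : ℕ) : ℝ) = M at hM1 hMb hMj hBJ hov hcr hR2 hm1 hm2 ⊢
  have hM0 : 0 < M := by linarith
  have hq0 : (0 : ℝ) < (q : ℝ) := by linarith
  have hT : (b : ℝ) * j + (j : ℝ) * ((j : ℝ) - 1) / 2 ≤ j * q := by
    rw [← hQ]
    nlinarith
  have hD : 0 < 4 * 10 ^ 11 * (q : ℝ) / M := by positivity
  have hTD : ((b : ℝ) * j + (j : ℝ) * ((j : ℝ) - 1) / 2) / (4 * 10 ^ 11 * (q : ℝ) / M) ≤
      j * M / (4 * 10 ^ 11) := by
    rw [div_le_iff₀ hD]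
    have h1 : (j : ℝ) * M / (4 * 10 ^ 11) * (4 * 10 ^ 11 * (q : ℝ) / M) = j * q := by
      field_simp
    rw [h1]
    exact hT
  have hov2 : ov ≤ j * M / (4 * 10 ^ 11) := by
    refine le_trans ?_ hTD
    rw [add_div]
    linarith
  have hcr2 : cr ≤ j * M / (4 * 10 ^ 11) := by
    refine le_trans (hcr.trans (le_of_eq ?_)) hTD
    rw [one_div, mul_comm, ← div_eq_mul_inv]
  have hJM : 0 ≤ j * M / (4 * 10 ^ 11) := by positivity
  have hm0 : 1 ≤ m := by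
    refine le_trans ?_ hm1
    rw [le_div_iff₀ hM0]
    linarith
  have h1 : ov / 2 + g0 * cr ≤ j * M / (4 * 10 ^ 11) := by
    have h2 : g0 * cr ≤ g0 * (j * M / (4 * 10 ^ 11)) := mul_le_mul_of_nonneg_left hcr2 hg0.le
    have h3 : g0 * (j * M / (4 * 10 ^ 11)) ≤ 1 / 2 * (j * M / (4 * 10 ^ 11)) :=
      mul_le_mul_of_nonneg_right (by linarith) hJM
    linarith
  have h2 : (m - 1) * (ov / 2 + g0 * cr) ≤ 200000 * b * j / (4 * 10 ^ 11) := by
    refine (mul_le_mul_of_nonneg_left h1 (by linarith)).trans ?_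
    refine (mul_le_mul_of_nonneg_right (show m - 1 ≤ 200000 * (b : ℝ) / M by linarith)
      hJM).trans (le_of_eq ?_)
    field_simp
  have h3 : (b : ℝ) * L / m ≤ M * L / 200000 := by
    rw [div_le_div_iff₀ (by linarith) (by norm_num)]
    rw [div_le_iff₀ hM0] at hm1
    nlinarith
  have h4 : 200000 * (b : ℝ) * j / (4 * 10 ^ 11) ≤ M * L / 1000000 := by
    rw [div_le_div_iff₀ (by norm_num) (by norm_num)]
    have h5 : M * (q : ℝ) ≤ M * (2 * L) := mul_le_mul_of_nonneg_left hq hM0.le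
    nlinarith
  have h5 : 0 ≤ M * L := by positivity
  linarith

end C0g
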