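import Pool.Agent.W_c0q2_h80.Bd
import Pool.Agent.W_c0q2_h80.SBn
import Pool.Agent.W_c0q2_h80.Gn

/-!
# MP_c0ce05_co, Q2 (proofs row 518), section 2: inequality (SB)
-/

set_option autoImplicit false

namespace C0g

open scoped Classical
open C0lo C0st C0q2

variable {N : ℕ}

/-- the edges outside `B` -/
noncomputable def outE (B A : Finset (Fin N)) : Finset (Sym2 (Fin N)) := ed A \ ed B

/-- the prior of the class: uniform on the `q`-sets containing `B` -/
noncomputable def aSB (q : ℕ) (B A : Finset (Fin N)) : ℝ :=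
  if B ⊆ A ∧ A.card = q then 1 / (N.choose (q - B.card) : ℝ) else 0

theorem aSB_nonneg (q : ℕ) (B A : Finset (Fin N)) : 0 ≤ aSB q B A := by
  unfold aSB
  split_ifs <;> positivity

theorem card_above {q : ℕ} (B : Finset (Fin N)) :
    (Finset.univ.filter (fun A : Finset (Fin N) => B ⊆ A ∧ A.card = q)).card ≤
      N.choose (q - B.card) := by
  have h1 : N.choose (q - B.card) =
      (Finset.powersetCard (q - B.card) (Finset.univ : Finset (Fin N))).card := by
    rw [Finset.card_powersetCard, Finset.card_univ, Fintype.card_fin]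
  rw [h1]
  refine Finset.card_le_card_of_injOn (fun A => A \ B) ?_ ?_
  · intro A hA
    have hA' := (Finset.mem_filter.1 (Finset.mem_coe.1 hA)).2
    refine Finset.mem_coe.2 (Finset.mem_powersetCard.2 ⟨Finset.subset_univ _, ?_⟩)
    rw [Finset.card_sdiff_of_subset hA'.1, hA'.2]
  · intro A hA A' hA' h
    have h1 := (Finset.mem_filter.1 (Finset.mem_coe.1 hA)).2.1
    have h2 := (Finset.mem_filter.1 (Finset.mem_coe.1 hA')).2.1
    simp only at h
    rw [← Finset.sdiff_union_of_subset h1, ← Finset.sdiff_union_of_subset h2, h]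

theorem sum_aSB (q : ℕ) (B : Finset (Fin N)) : ∑ A, aSB q B A ≤ 1 := by
  unfold aSB
  rw [← Finset.sum_filter, Finset.sum_const, nsmul_eq_mul, mul_one_div]
  refine div_le_one_of_le₀ ?_ (Nat.cast_nonneg _)
  exact_mod_cast card_above B

/-- the class system -/
theorem sb_class (N q : ℕ) : Sys N (1 / 64) (fun P => ∀ B : Finset (Fin N), B.card ≤ q →
    ∑ W : Fin (msb B.card (q - B.card)) → Finset (Fin N), (∏ i, aSB q B (W i)) *
      wtP P (Finset.univ.biUnion (fun i => outE B (W i))) ≤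
        (N.choose B.card : ℝ) / (1 / (64 * ((q : ℝ) + 1)))) := by
  have hq : (0 : ℝ) < (q : ℝ) + 1 := by positivity
  have h1 : ∀ b : Fin (q + 1), Sys N (1 / (64 * ((q : ℝ) + 1)))
      (fun P => ∀ d : {B : Finset (Fin N) // B.card = (b : ℕ)},
        ∑ W : Fin (msb (b : ℕ) (q - (b : ℕ))) → Finset (Fin N), (∏ i, aSB q d.1 (W i)) *
          wtP P (Finset.univ.biUnion (fun i => outE d.1 (W i))) ≤
        (Fintype.card {B : Finset (Fin N) // B.card = (b : ℕ)} : ℝ) /
          (1 / (64 * ((q : ℝ) + 1)))) := by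
    intro b
    exact Sys_class (msb (b : ℕ) (q - (b : ℕ)))
      (fun (d : {B : Finset (Fin N) // B.card = (b : ℕ)}) A => outE d.1 A)
      (fun d A => aSB q d.1 A) (fun d A => aSB_nonneg q d.1 A) (fun d => sum_aSB q d.1)
      (by positivity)
  refine (Sys.all h1).mono ?_ ?_
  · rw [Finset.sum_const, Finset.card_univ, Fintype.card_fin, nsmul_eq_mul]
    push_cast
    apply le_of_eq
    field_simp
  · intro P hP B hB
    have h2 := hP ⟨B.card, by omega⟩ ⟨B, rfl⟩
    simp only [Fintype.card_finset_len, Fintype.card_fin] at h2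
    exact h2

section

variable {q : ℕ} {C : Finset (Finset (Fin N))} {S B : Finset (Fin N)}

theorem Ri_pos {i : ℕ} (h : i < q) : 0 < Ri q i := by
  have := one_le_Ri h
  linarith

/-- probability of an edge with an end point outside `B` -/
theorem pr_one (hC : ∀ A ∈ C, A.card = q) (h : Clo q C S B) (hb : B.card < q) {x y : Fin N}
    (hx : x ∉ B) : prE (unif (pinS C B)) (outE B) s(x, y) ≤ 1 / Ri q B.card := by
  rw [prE_unif, div_le_div_iff₀ (by exact_mod_cast h.ne.card_pos) (Ri_pos hb), one_mul]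
  refine le_trans ?_ (Clo.one hC h hx)
  refine mul_le_mul_of_nonneg_right ?_ (Ri_pos hb).le
  have h1 : ((pinS C B).filter (fun A => s(x, y) ∈ outE B A)).card ≤ cntS C (insert x B) := by
    unfold cntS
    refine Finset.card_le_card (fun A hA => ?_)
    rw [Finset.mem_filter, mem_pinS] at hA
    rw [mem_pinS]
    refine ⟨hA.1.1, Finset.insert_subset ?_ hA.1.2⟩
    have h2 := (Finset.mem_sdiff.1 hA.2).1
    rw [mem_ed] at h2
    exact h2.1 x (Sym2.mem_mk_left x y)
  exact_mod_cast h1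

/-- probability of a pair outside `B` -/
theorem pr_two (hC : ∀ A ∈ C, A.card = q) (h : Clo q C S B) (hb : B.card + 1 < q) {x y : Fin N}
    (hx : x ∉ B) (hy : y ∉ B) (hxy : x ≠ y) :
    prE (unif (pinS C B)) (outE B) s(x, y) ≤ 1 / (Ri q B.card * Ri q (B.card + 1)) := by
  have hR : 0 < Ri q B.card * Ri q (B.card + 1) := mul_pos (Ri_pos (by omega)) (Ri_pos hb)
  rw [prE_unif, div_le_div_iff₀ (by exact_mod_cast h.ne.card_pos) hR, one_mul]
  refine le_trans ?_ (Clo.two hC h hx hy hxy)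
  refine mul_le_mul_of_nonneg_right ?_ hR.le
  have h1 : ((pinS C B).filter (fun A => s(x, y) ∈ outE B A)).card ≤
      cntS C (insert x (insert y B)) := by
    unfold cntS
    refine Finset.card_le_card (fun A hA => ?_)
    rw [Finset.mem_filter, mem_pinS] at hA
    rw [mem_pinS]
    have h2 := (Finset.mem_sdiff.1 hA.2).1
    rw [mem_ed] at h2
    exact ⟨hA.1.1, Finset.insert_subset (h2.1 x (Sym2.mem_mk_left x y))
      (Finset.insert_subset (h2.1 y (Sym2.mem_mk_right x y)) hA.1.2)⟩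
  exact_mod_cast h1

/-- every edge which is not a loop -/
theorem pr_any (hC : ∀ A ∈ C, A.card = q) (h : Clo q C S B) (hb : B.card < q)
    {f : Sym2 (Fin N)} (hf : ¬ f.IsDiag) :
    prE (unif (pinS C B)) (outE B) f ≤ 1 / Ri q B.card := by
  by_cases h1 : ∀ v ∈ f, v ∈ B
  · have h2 : f ∈ ed B := by
      rw [mem_ed]
      exact ⟨h1, hf⟩
    rw [prE_unif, Finset.filter_false_of_mem, Finset.card_empty, Nat.cast_zero, zero_div]
    · exact (one_div_pos.2 (Ri_pos hb)).le
    · intro A _ h3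
      exact (Finset.mem_sdiff.1 h3).2 h2
  · push Not at h1
    obtain ⟨x, hxf, hxB⟩ := h1
    obtain ⟨y, rfl⟩ := Sym2.mem_iff_exists.1 hxf
    exact pr_one hC h hb hxB

theorem sum_outE_le {A : Finset (Fin N)} (hBA : B ⊆ A) {f : Sym2 (Fin N) → ℝ} {u v : ℝ}
    (hf : ∀ x ∉ B, ∀ y, f s(x, y) ≤ u) (hv : ∀ x ∉ B, ∀ y ∉ B, x ≠ y → f s(x, y) ≤ v)
    (h0 : ∀ e, 0 ≤ f e) :
    ∑ e ∈ outE B A, f e ≤ (B.card : ℝ) * ((A \ B).card : ℝ) * u +
      ((A \ B).card : ℝ) * (((A \ B).card : ℝ) - 1) / 2 * v := by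
  have h1 : outE B A ⊆ (((A \ B) ×ˢ B).image (fun p => s(p.1, p.2))) ∪ ed (A \ B) := by
    intro e he
    obtain ⟨he1, he2⟩ := Finset.mem_sdiff.1 he
    rw [mem_ed] at he1 he2
    rw [Finset.mem_union]
    by_cases h2 : ∀ v ∈ e, v ∉ B
    · right
      rw [mem_ed]
      exact ⟨fun v hv => Finset.mem_sdiff.2 ⟨he1.1 v hv, h2 v hv⟩, he1.2⟩
    · left
      push Not at h2
      obtain ⟨y, hye, hyB⟩ := h2
      obtain ⟨x, rfl⟩ := Sym2.mem_iff_exists.1 hye
      have hxB : x ∉ B := by
        intro hx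
        apply he2
        refine ⟨?_, he1.2⟩
        intro v hv
        rcases Sym2.mem_iff.1 hv with rfl | rfl
        · exact hyB
        · exact hx
      rw [Finset.mem_image]
      exact ⟨(x, y), Finset.mem_product.2 ⟨Finset.mem_sdiff.2
        ⟨he1.1 x (Sym2.mem_mk_right y x), hxB⟩, hyB⟩, Sym2.eq_swap⟩
  calc ∑ e ∈ outE B A, f e
      ≤ ∑ e ∈ (((A \ B) ×ˢ B).image (fun p => s(p.1, p.2))) ∪ ed (A \ B), f e :=
        Finset.sum_le_sum_of_subset_of_nonneg h1 (fun e _ _ => h0 e)
    _ ≤ ∑ e ∈ ((A \ B) ×ˢ B).image (fun p => s(p.1, p.2)), f e + ∑ e ∈ ed (A \ B), f e := by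
        rw [← Finset.sum_union_inter]
        have := Finset.sum_nonneg (fun e (_ : e ∈ (((A \ B) ×ˢ B).image
          (fun p => s(p.1, p.2))) ∩ ed (A \ B)) => h0 e)
        linarith
    _ ≤ (B.card : ℝ) * ((A \ B).card : ℝ) * u +
        ((A \ B).card : ℝ) * (((A \ B).card : ℝ) - 1) / 2 * v := by
        refine add_le_add ?_ ?_
        · calc ∑ e ∈ ((A \ B) ×ˢ B).image (fun p => s(p.1, p.2)), f e
              ≤ ∑ p ∈ (A \ B) ×ˢ B, f s(p.1, p.2) :=
                Finset.sum_image_le_of_nonneg (fun e _ => h0 e)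
            _ ≤ ∑ _p ∈ (A \ B) ×ˢ B, u := by
                refine Finset.sum_le_sum (fun p hp => ?_)
                have h3 := (Finset.mem_product.1 hp).1
                exact hf p.1 (Finset.mem_sdiff.1 h3).2 p.2
            _ = (B.card : ℝ) * ((A \ B).card : ℝ) * u := by
                rw [Finset.sum_const, nsmul_eq_mul, Finset.card_product]
                push_cast
                ring
        · calc ∑ e ∈ ed (A \ B), f e ≤ ∑ _e ∈ ed (A \ B), v := by
                refine Finset.sum_le_sum (fun e he => ?_)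
                rw [mem_ed] at he
                induction e using Sym2.ind with
                | _ x y =>
                  exact hv x (Finset.mem_sdiff.1 (he.1 x (Sym2.mem_mk_left x y))).2 y
                    (Finset.mem_sdiff.1 (he.1 y (Sym2.mem_mk_right x y))).2 (fun hxy => he.2 hxy)
            _ = ((A \ B).card : ℝ) * (((A \ B).card : ℝ) - 1) / 2 * v := by
                rw [Finset.sum_const, nsmul_eq_mul, card_ed, Nat.cast_choose_two]

theorem ovl_out (hC : ∀ A ∈ C, A.card = q) (h : Clo q C S B) {b j : ℕ} (hb : B.card = b)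
    (hbj : b + j = q) (hj : 1 ≤ j) :
    ovl (unif (pinS C B)) (outE B) ≤ (b : ℝ) * j / Ri q b +
      (j : ℝ) * ((j : ℝ) - 1) / 2 / (Ri q b * Ri q (b + 1)) := by
  have hlaw := unif_law h.ne
  rw [ovl_eq]
  refine (ex1_mono hlaw (g := fun _ => (b : ℝ) * j / Ri q b +
      (j : ℝ) * ((j : ℝ) - 1) / 2 / (Ri q b * Ri q (b + 1))) (fun A hA => ?_)).trans
    (le_of_eq (ex1_const hlaw _))
  have hA' := mem_pinS.1 (unif_ne hA)
  have hjA : (A \ B).card = j := by
    rw [Finset.card_sdiff_of_subset hA'.2, hC A hA'.1, hb]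
    omega
  have hbq : B.card < q := by omega
  have h1 := sum_outE_le (B := B) hA'.2 (f := prE (unif (pinS C B)) (outE B))
    (u := 1 / Ri q b) (v := if j = 1 then 1 / Ri q b else 1 / (Ri q b * Ri q (b + 1)))
    (fun x hx y => by
      rw [← hb]
      exact pr_one hC h hbq hx)
    (fun x hx y hy hxy => by
      by_cases hj1 : j = 1
      · rw [if_pos hj1, ← hb]
        exact pr_one hC h hbq hx
      · rw [if_neg hj1, ← hb]
        exact pr_two hC h (by omega) hx hy hxy)
    (fun e => prE_nonneg hlaw _ e)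
  refine h1.trans (le_of_eq ?_)
  rw [hjA, hb]
  by_cases hj1 : j = 1
  · rw [if_pos hj1, hj1]
    push_cast
    ring
  · rw [if_neg hj1]
    ring

theorem card_outE_le (hC : ∀ A ∈ C, A.card = q) {b j : ℕ} (hb : B.card = b)
    (hbj : b + j = q) {A : Finset (Fin N)} (hA : unif (pinS C B) A ≠ 0) :
    ((outE B A).card : ℝ) ≤ (b : ℝ) * j + (j : ℝ) * ((j : ℝ) - 1) / 2 := by
  have hA' := mem_pinS.1 (unif_ne hA)
  exact le_of_eq (card_out hA'.2 hb (by rw [hC A hA'.1, hbj]))

end

/-- (SB) for one position -/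
theorem sb_pos {q : ℕ} {L l : ℝ} (hbig : Big N q L l) {P : GP N} {Dl : ℕ} (hV : P.Valid Dl)
    {C : Finset (Finset (Fin N))} {S B : Finset (Fin N)}
    (hC : ∀ A ∈ C, A.card = q ∧ Disjoint (ed A) P.K) (h : Clo q C S B) (hbq : B.card < q)
    (hs : ∑ W : Fin (msb B.card (q - B.card)) → Finset (Fin N), (∏ i, aSB q B (W i)) *
      wtP P (Finset.univ.biUnion (fun i => outE B (W i))) ≤
        (N.choose B.card : ℝ) / (1 / (64 * ((q : ℝ) + 1)))) :
    Real.logb 2 (cntS C B : ℝ) ≤ Real.logb 2 (N.choose (q - B.card) : ℝ) -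
        av (pinS C B) (fun A => gain P (ed A \ ed B) (ed A \ ed B)) +
        3 / 200000 * (((min B.card (q - B.card) : ℕ) : ℝ) * L) +
        Real.logb 2 (64 * ((q : ℝ) + 1)) := by
  have hC' : ∀ A ∈ C, A.card = q := fun A hA => (hC A hA).1
  obtain ⟨A0, hA0⟩ := h.ne
  have hA0' := mem_pinS.1 hA0
  have hqN : q ≤ N := by
    rw [← hC' A0 hA0'.1]
    exact (Finset.card_le_univ A0).trans (le_of_eq (Fintype.card_fin N))
  set b := B.card with hb
  set j := q - b with hj
  have hbj : b + j = q := by omega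
  have hj1 : 1 ≤ j := by omega
  have hN0 : 0 < N := by omega
  have hNr : (0 : ℝ) < N := by exact_mod_cast hN0
  have hL1 : (1 : ℝ) ≤ L := by
    have h1 := hbig.l_big
    have h2 := hbig.l_sm
    nlinarith [show (1 : ℝ) ≤ 10 ^ 17 by norm_num, show (1 : ℝ) ≤ 10 ^ 40 by norm_num]
  have hq2 : (q : ℝ) ≤ 2 * L := by
    have h1 := hbig.q_le
    have h2 := hbig.l_big
    nlinarith [show (10 : ℝ) ^ 17 = 10 * 10 ^ 16 by norm_num, show (1 : ℝ) ≤ 10 ^ 16 by norm_num]
  have hm : 0 < msb b j := by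
    unfold msb
    split_ifs with h0
    · exact Nat.zero_lt_one
    · apply Nat.ceil_pos.2
      have h1 : 0 < min b j := by omega
      have h2 : (0 : ℝ) < ((min b j : ℕ) : ℝ) := by exact_mod_cast h1
      have h3 : (0 : ℝ) < b := by exact_mod_cast Nat.pos_of_ne_zero h0
      positivity
  have hm' : (1 : ℝ) ≤ (msb b j : ℝ) := by exact_mod_cast hm
  have hch : (0 : ℝ) < (N.choose b : ℝ) := by
    have : 0 < N.choose b := Nat.choose_pos (by omega)
    exact_mod_cast this
  have hchj : (0 : ℝ) < (N.choose j : ℝ) := by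
    have : 0 < N.choose j := Nat.choose_pos (by omega)
    exact_mod_cast this
  have hΛ : (0 : ℝ) < (N.choose b : ℝ) / (1 / (64 * ((q : ℝ) + 1))) := by positivity
  have hG := G_fam hV h.ne hm ∅ (U := outE B) (E := outE B)
    (fun A _ => Finset.Subset.refl _)
    (fun A hA => Finset.disjoint_of_subset_left Finset.sdiff_subset
      (hC A (mem_pinS.1 hA).1).2) (aSB_nonneg q B)
    (fun A hA => by
      have hA' := mem_pinS.1 hA
      unfold aSB
      rw [if_pos ⟨hA'.2, hC' A hA'.1⟩]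
      exact one_div_pos.2 hchj) hΛ hs
  have hppl : ppl P ∅ (unif (pinS C B)) (outE B) = 0 := by
    unfold ppl
    rw [Finset.filter_false_of_mem (fun d _ => Finset.notMem_empty _), Finset.sum_empty]
  rw [hppl, mul_zero, add_zero] at hG
  have hav : av (pinS C B) (fun ω => - Real.logb 2 (aSB q B ω)) =
      Real.logb 2 (N.choose j : ℝ) := by
    unfold av
    have h1 : ∀ A ∈ pinS C B, - Real.logb 2 (aSB q B A) = Real.logb 2 (N.choose j : ℝ) := by
      intro A hA
      have hA' := mem_pinS.1 hA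
      unfold aSB
      rw [if_pos ⟨hA'.2, hC' A hA'.1⟩, one_div, Real.logb_inv, neg_neg]
    rw [Finset.sum_congr rfl h1, Finset.sum_const, nsmul_eq_mul]
    have h2 : ((pinS C B).card : ℝ) ≠ 0 := by
      have : (pinS C B).card ≠ 0 := Finset.card_ne_zero.2 h.ne
      exact_mod_cast this
    field_simp
  rw [hav] at hG
  have hΛ2 : Real.logb 2 ((N.choose b : ℝ) / (1 / (64 * ((q : ℝ) + 1)))) ≤
      b * L + Real.logb 2 (64 * ((q : ℝ) + 1)) := by
    rw [div_div_eq_mul_div, div_one, Real.logb_mul hch.ne' (by positivity)]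
    refine add_le_add ?_ le_rfl
    have h1 : (N.choose b : ℝ) ≤ (N : ℝ) ^ b := by exact_mod_cast Nat.choose_le_pow N b
    calc Real.logb 2 (N.choose b : ℝ) ≤ Real.logb 2 ((N : ℝ) ^ b) :=
          Real.logb_le_logb_of_le (by norm_num) hch h1
      _ = b * L := by rw [Real.logb_pow, hbig.L_def]
  have hκ : 0 ≤ Real.logb 2 (64 * ((q : ℝ) + 1)) := by
    refine Real.logb_nonneg (by norm_num) ?_
    have : (0 : ℝ) ≤ q := Nat.cast_nonneg _
    linarith
  have hκ2 : Real.logb 2 ((N.choose b : ℝ) / (1 / (64 * ((q : ℝ) + 1)))) / (msb b j : ℝ) ≤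
      b * L / (msb b j : ℝ) + Real.logb 2 (64 * ((q : ℝ) + 1)) := by
    have h1 := div_le_div_of_nonneg_right hΛ2 (by linarith : (0 : ℝ) ≤ (msb b j : ℝ))
    rw [add_div] at h1
    have h2 : Real.logb 2 (64 * ((q : ℝ) + 1)) / (msb b j : ℝ) ≤
        Real.logb 2 (64 * ((q : ℝ) + 1)) := div_le_self hκ hm'
    linarith
  by_cases hb0 : b = 0
  · have hm1 : msb b j = 1 := by
      unfold msb
      rw [if_pos hb0]
    rw [hm1] at hG hκ2
    rw [hb0] at hκ2 hG ⊢
    simp only [Nat.cast_one, sub_self, zero_mul, add_zero, Nat.cast_zero, zero_div, zero_add]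
      at hG hκ2
    simp only [Nat.zero_min, Nat.cast_zero, zero_mul, mul_zero, add_zero]
    have h1 : av (pinS C B) (fun ω => gain P (outE B ω) (outE B ω)) =
      av (pinS C B) (fun A => gain P (ed A \ ed B) (ed A \ ed B)) := rfl
    rw [h1] at hG
    have h2 : (cntS C B : ℝ) = ((pinS C B).card : ℝ) := rfl
    rw [h2]
    linarith
  · have hnum := sb_num (L := L) (cr := crs P ∅ (unif (pinS C B)) (outE B) (outE B)) hL1 hq2 hbj
      (Nat.one_le_iff_ne_zero.2 hb0) hj1
      (ovl_out hC' h hb.symm hbj hj1)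
      (crs_le (Pop := ∅) hV (unif_law h.ne) (one_div_pos.2 (Ri_pos hbq)).le
        (fun f hf _ => pr_any hC' h hbq hf) (fun A hA => card_outE_le hC' hb.symm hbj hA))
    have h1 : av (pinS C B) (fun ω => gain P (outE B ω) (outE B ω)) =
      av (pinS C B) (fun A => gain P (ed A \ ed B) (ed A \ ed B)) := rfl
    rw [h1] at hG
    have h2 : (cntS C B : ℝ) = ((pinS C B).card : ℝ) := rfl
    rw [h2]
    linarith

/-- **(SB)** for a closure `B` with `b < q` elements. -/
theorem sb_sys {q : ℕ} {L l : ℝ} (hb : Big N q L l) :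
    Sys N (1 / 64) (fun P => ∀ Dl, P.Valid Dl → ∀ (C : Finset (Finset (Fin N)))
      (S B : Finset (Fin N)), (∀ A ∈ C, A.card = q ∧ Disjoint (ed A) P.K) → Clo q C S B →
      B.card < q →
      Real.logb 2 (cntS C B : ℝ) ≤ Real.logb 2 (N.choose (q - B.card) : ℝ) -
        av (pinS C B) (fun A => gain P (ed A \ ed B) (ed A \ ed B)) +
        3 / 200000 * (((min B.card (q - B.card) : ℕ) : ℝ) * L) +
        Real.logb 2 (64 * ((q : ℝ) + 1))) := by
  refine (sb_class N q).mono le_rfl ?_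
  intro P hP Dl hV C S B hC h hbq
  exact sb_pos hb hV hC h hbq (hP B hbq.le)

end C0g
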