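import Pool.Agent.W_c0q2_h80.Law
import Pool.Agent.W_c0q2_h20.Iface

/-!
# MP_c0ce05_co, Q2 (proofs row 518), section 1: the weight of a union of edge sets

`gain P U Q = |U ∩ C| - g0 * (links from U to Q)`, `g0 = log₂ (4/3)`.
`logb_wtP_union`: for `U i ⊆ Q i`, all `Q i` alive, and any set `Pop` of edges
`log₂ wtP(⋃ Q i) ≥ Σ gain (U i) (Q i) - Σ_{i ≠ j} (|U i ∩ U j| / 2 + g0 * (links from U i to
Q j with target not in Pop)) - g0 * Σ_i (links from U i with target in Pop)`.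
-/

set_option autoImplicit false

namespace C0g

open scoped Classical
open C0lo C0st C0q2

variable {N : ℕ}

/-- the gain of the edge set `U` inside `Q` in bits -/
noncomputable def gain (P : GP N) (U Q : Finset (Sym2 (Fin N))) : ℝ :=
  ((U ∩ P.C).card : ℝ) - g0 * (lk P U Q : ℝ)

theorem g0_eq : g0 = 2 - Real.logb 2 3 := by
  unfold g0
  rw [Real.logb_div (by norm_num) (by norm_num)]
  have h : Real.logb 2 4 = 2 := by
    rw [show (4 : ℝ) = 2 ^ (2 : ℝ) by norm_num, Real.logb_rpow (by norm_num) (by norm_num)]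
  rw [h]

set_option exponentiation.threshold 600 in
theorem logb3_lt : Real.logb 2 3 < 485 / 306 := by
  rw [Real.logb_lt_iff_lt_rpow (by norm_num) (by norm_num)]
  have h1 : ((2 : ℝ) ^ (485 / 306 : ℝ)) ^ (306 : ℕ) = 2 ^ (485 : ℕ) := by
    rw [← Real.rpow_natCast, ← Real.rpow_mul (by norm_num), ← Real.rpow_natCast]
    norm_num
  have h2 : (3 : ℝ) ^ (306 : ℕ) < ((2 : ℝ) ^ (485 / 306 : ℝ)) ^ (306 : ℕ) := by
    rw [h1]
    norm_num
  exact lt_of_pow_lt_pow_left₀ 306 (by positivity) h2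

theorem lt_logb3 : 84 / 53 < Real.logb 2 3 := by
  rw [Real.lt_logb_iff_rpow_lt (by norm_num) (by norm_num)]
  have h1 : ((2 : ℝ) ^ (84 / 53 : ℝ)) ^ (53 : ℕ) = 2 ^ (84 : ℕ) := by
    rw [← Real.rpow_natCast, ← Real.rpow_mul (by norm_num), ← Real.rpow_natCast]
    norm_num
  have h2 : ((2 : ℝ) ^ (84 / 53 : ℝ)) ^ (53 : ℕ) < (3 : ℝ) ^ (53 : ℕ) := by
    rw [h1]
    norm_num
  exact lt_of_pow_lt_pow_left₀ 53 (by positivity) h2

theorem g0_gt : (41503 / 100000 : ℝ) < g0 := by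
  rw [g0_eq]
  have := logb3_lt
  linarith

theorem g0_lt : g0 < (4151 / 10000 : ℝ) := by
  rw [g0_eq]
  have := lt_logb3
  linarith

theorem g0_pos : 0 < g0 := by
  have := g0_gt
  linarith

theorem logb_wtP {P : GP N} {Q : Finset (Sym2 (Fin N))} (hQ : Disjoint Q P.K) :
    Real.logb 2 (wtP P Q) = gain P Q Q := by
  unfold wtP gain g0
  rw [if_pos hQ, Real.logb_mul (by positivity) (by positivity), Real.logb_pow, Real.logb_pow,
    Real.logb_self_eq_one (by norm_num)]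
  have h1 : Real.logb 2 (3 / 4 : ℝ) = - Real.logb 2 (4 / 3) := by
    rw [← Real.logb_inv]
    norm_num
  rw [h1]
  ring

/-- links are at most the claimed edges -/
theorem lk_le_card {P : GP N} {Dl : ℕ} (hV : P.Valid Dl) (U Q : Finset (Sym2 (Fin N))) :
    lk P U Q ≤ (U ∩ P.C).card := by
  unfold lk
  refine Finset.card_le_card_of_injOn (fun d => d.1) ?_ ?_
  · intro d hd
    have hd' := Finset.mem_filter.1 (Finset.mem_coe.1 hd)
    exact Finset.mem_coe.2 (Finset.mem_inter.2 ⟨hd'.2.1, hV.fst d hd'.1⟩)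
  · intro d hd d' hd' hdd
    have hd1 := Finset.mem_filter.1 (Finset.mem_coe.1 hd)
    have hd2 := Finset.mem_filter.1 (Finset.mem_coe.1 hd')
    exact hV.fn d hd1.1 d' hd2.1 hdd

theorem lk_mono {P : GP N} {U U' Q Q' : Finset (Sym2 (Fin N))} (hU : U ⊆ U') (hQ : Q ⊆ Q') :
    lk P U Q ≤ lk P U' Q' := by
  unfold lk
  refine Finset.card_le_card (fun d hd => ?_)
  rw [Finset.mem_filter] at hd ⊢
  exact ⟨hd.1, hU hd.2.1, hQ hd.2.2⟩

theorem lk_le_add (P : GP N) (U Q : Finset (Sym2 (Fin N))) (V : Finset (Sym2 (Fin N))) :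
    lk P Q V ≤ lk P U V + lk P (Q \ U) V := by
  unfold lk
  refine le_trans (Finset.card_le_card (fun d hd => ?_)) (Finset.card_union_le _ _)
  rw [Finset.mem_filter] at hd
  rw [Finset.mem_union, Finset.mem_filter, Finset.mem_filter, Finset.mem_sdiff]
  by_cases hU : d.1 ∈ U
  · exact Or.inl ⟨hd.1, hU, hd.2.2⟩
  · exact Or.inr ⟨hd.1, ⟨hd.2.1, hU⟩, hd.2.2⟩

theorem card_split (C U Q : Finset (Sym2 (Fin N))) (hUQ : U ⊆ Q) :
    ((Q ∩ C).card : ℝ) = ((U ∩ C).card : ℝ) + (((Q \ U) ∩ C).card : ℝ) := by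
  have h3 : Q ∩ C = (U ∩ C) ∪ ((Q \ U) ∩ C) := by
    rw [← Finset.union_inter_distrib_right, Finset.union_sdiff_of_subset hUQ]
  have h4 : Disjoint (U ∩ C) ((Q \ U) ∩ C) :=
    Finset.disjoint_of_subset_left Finset.inter_subset_left
      (Finset.disjoint_of_subset_right Finset.inter_subset_left Finset.disjoint_sdiff)
  rw [h3, Finset.card_union_of_disjoint h4]
  push_cast
  ring

theorem gain_mono {P : GP N} {Dl : ℕ} (hV : P.Valid Dl) {U Q : Finset (Sym2 (Fin N))}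
    (hUQ : U ⊆ Q) : gain P U Q ≤ gain P Q Q := by
  have h1 : ((lk P Q Q : ℕ) : ℝ) ≤ (lk P U Q : ℝ) + (((Q \ U) ∩ P.C).card : ℝ) := by
    exact_mod_cast (lk_le_add P U Q Q).trans (Nat.add_le_add_left (lk_le_card hV _ _) _)
  have h2 := card_split P.C U Q hUQ
  have h5 := g0_pos
  have h6 := g0_lt
  have h7 : (0 : ℝ) ≤ (((Q \ U) ∩ P.C).card : ℝ) := Nat.cast_nonneg _
  unfold gain
  rw [h2]
  nlinarith [mul_le_mul_of_nonneg_left h1 h5.le]

theorem gain_ge {P : GP N} {Dl : ℕ} (hV : P.Valid Dl) (U Q : Finset (Sym2 (Fin N))) :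
    (1 - g0) * ((U ∩ P.C).card : ℝ) ≤ gain P U Q := by
  have h1 : ((lk P U Q : ℕ) : ℝ) ≤ ((U ∩ P.C).card : ℝ) := by exact_mod_cast lk_le_card hV U Q
  unfold gain
  nlinarith [mul_le_mul_of_nonneg_left h1 g0_pos.le]

theorem offdiag {ι : Type} [Fintype ι] [DecidableEq ι] (f : ι → ι → ℝ) :
    ∑ i, ∑ j, f i j = ∑ i, f i i + ∑ i, ∑ j, (if i = j then 0 else f i j) := by
  rw [← Finset.sum_add_distrib]
  refine Finset.sum_congr rfl (fun i _ => ?_)
  have h1 : f i i = ∑ j, (if i = j then f i j else 0) := by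
    rw [Finset.sum_ite_eq Finset.univ i (fun j => f i j), if_pos (Finset.mem_univ i)]
  rw [h1, ← Finset.sum_add_distrib]
  refine Finset.sum_congr rfl (fun j _ => ?_)
  by_cases hij : i = j
  · rw [if_pos hij, if_pos hij, add_zero]
  · rw [if_neg hij, if_neg hij, zero_add]

private theorem pt {ι : Type} [Fintype ι] [DecidableEq ι] (p : ι → Prop) [DecidablePred p] :
    ∑ i, (if p i then (1 : ℝ) else 0) -
      (∑ i, ∑ j, (if i = j then 0 else (if p i ∧ p j then (1 : ℝ) else 0))) / 2 ≤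
      (if ∃ i, p i then (1 : ℝ) else 0) := by
  set t : ℕ := (Finset.univ.filter p).card with ht
  have h1 : ∑ i, (if p i then (1 : ℝ) else 0) = t := by
    rw [Finset.sum_boole, ht]
  have h2 : ∑ i, ∑ j, (if p i ∧ p j then (1 : ℝ) else 0) = (t : ℝ) * t := by
    rw [← h1, Finset.sum_mul_sum]
    refine Finset.sum_congr rfl (fun i _ => Finset.sum_congr rfl (fun j _ => ?_))
    by_cases hi : p i <;> by_cases hj : p j <;> simp [hi, hj]
  have h3 := offdiag (fun i j : ι => if p i ∧ p j then (1 : ℝ) else 0)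
  have h4 : ∑ i, (if p i ∧ p i then (1 : ℝ) else 0) = t := by
    rw [← h1]
    refine Finset.sum_congr rfl (fun i _ => ?_)
    by_cases hi : p i <;> simp [hi]
  rw [h2, h4] at h3
  rw [h1]
  by_cases hp : ∃ i, p i
  · rw [if_pos hp]
    obtain ⟨i, hi⟩ := hp
    have ht1 : 1 ≤ t := by
      rw [ht, Nat.one_le_iff_ne_zero, Finset.card_ne_zero]
      exact ⟨i, Finset.mem_filter.2 ⟨Finset.mem_univ _, hi⟩⟩
    have h5 : (0 : ℝ) ≤ ((t : ℝ) - 1) * (t - 2) := by
      rcases Nat.lt_or_ge t 2 with h6 | h6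
      · have h7 : t = 1 := by omega
        rw [h7]
        norm_num
      · have h7 : (2 : ℝ) ≤ t := by exact_mod_cast h6
        nlinarith
    nlinarith
  · rw [if_neg hp]
    have ht0 : t = 0 := by
      rw [ht, Finset.card_eq_zero, Finset.filter_eq_empty_iff]
      intro i _ hi
      exact hp ⟨i, hi⟩
    rw [ht0] at h3 ⊢
    push_cast at h3 ⊢
    linarith

theorem card_union_ge {ι : Type} [Fintype ι] [DecidableEq ι] (C : Finset (Sym2 (Fin N)))
    (U : ι → Finset (Sym2 (Fin N))) :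
    ∑ i, ((U i ∩ C).card : ℝ) - (∑ i, ∑ j, (if i = j then 0 else ((U i ∩ U j).card : ℝ))) / 2 ≤
      (((Finset.univ.biUnion U) ∩ C).card : ℝ) := by
  have h1 : ∀ A : Finset (Sym2 (Fin N)), ((A ∩ C).card : ℝ) =
      ∑ e ∈ C, (if e ∈ A then (1 : ℝ) else 0) := by
    intro A
    rw [Finset.sum_boole, Finset.inter_comm, Finset.filter_mem_eq_inter]
  have h2 : ∑ i, ((U i ∩ C).card : ℝ) = ∑ e ∈ C, ∑ i, (if e ∈ U i then (1 : ℝ) else 0) := by
    rw [Finset.sum_comm]
    exact Finset.sum_congr rfl (fun i _ => h1 _)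
  have h3 : ∑ e ∈ C, ∑ i, ∑ j, (if i = j then 0 else
      (if e ∈ U i ∧ e ∈ U j then (1 : ℝ) else 0)) ≤
      ∑ i, ∑ j, (if i = j then 0 else ((U i ∩ U j).card : ℝ)) := by
    rw [Finset.sum_comm]
    refine Finset.sum_le_sum (fun i _ => ?_)
    rw [Finset.sum_comm]
    refine Finset.sum_le_sum (fun j _ => ?_)
    by_cases hij : i = j
    · simp [hij]
    · simp only [if_neg hij]
      have h4 : ∑ e ∈ C, (if e ∈ U i ∧ e ∈ U j then (1 : ℝ) else 0) =
          ((U i ∩ U j ∩ C).card : ℝ) := by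
        rw [h1]
        refine Finset.sum_congr rfl (fun e _ => ?_)
        simp only [Finset.mem_inter]
      rw [h4]
      exact_mod_cast Finset.card_le_card Finset.inter_subset_left
  have h5 : (((Finset.univ.biUnion U) ∩ C).card : ℝ) =
      ∑ e ∈ C, (if ∃ i, e ∈ U i then (1 : ℝ) else 0) := by
    rw [h1]
    refine Finset.sum_congr rfl (fun e _ => ?_)
    simp only [Finset.mem_biUnion, Finset.mem_univ, true_and]
  rw [h5, h2]
  have h6 : ∑ e ∈ C, (∑ i, (if e ∈ U i then (1 : ℝ) else 0) -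
      (∑ i, ∑ j, (if i = j then 0 else (if e ∈ U i ∧ e ∈ U j then (1 : ℝ) else 0))) / 2) ≤
      ∑ e ∈ C, (if ∃ i, e ∈ U i then (1 : ℝ) else 0) :=
    Finset.sum_le_sum (fun e _ => pt (fun i => e ∈ U i))
  rw [Finset.sum_sub_distrib, ← Finset.sum_div] at h6
  linarith

/-- the number of links with source in `U` and target in `Pop` (anywhere) -/
noncomputable def lkp (P : GP N) (Pop U : Finset (Sym2 (Fin N))) : ℕ :=
  (P.db.filter (fun d => d.1 ∈ U ∧ d.2 ∈ Pop)).card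

theorem lk_union_le {ι : Type} [Fintype ι] [DecidableEq ι] (P : GP N) (Pop : Finset (Sym2 (Fin N)))
    (U Q : ι → Finset (Sym2 (Fin N))) :
    (lk P (Finset.univ.biUnion U) (Finset.univ.biUnion Q) : ℝ) ≤
      ∑ i, (lk P (U i) (Q i) : ℝ) +
        ∑ i, ∑ j, (if i = j then 0 else (lk P (U i) (Q j \ Pop) : ℝ)) +
        ∑ i, (lkp P Pop (U i) : ℝ) := by
  have h1 : lk P (Finset.univ.biUnion U) (Finset.univ.biUnion Q) ≤
      ∑ i, lk P (U i) (Q i) +
        ∑ i, ∑ j, (if i = j then 0 else lk P (U i) (Q j \ Pop)) + ∑ i, lkp P Pop (U i) := by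
    rw [← Finset.sum_product' Finset.univ Finset.univ
      (fun i j => if i = j then 0 else lk P (U i) (Q j \ Pop))]
    have h2 : (P.db.filter (fun d => d.1 ∈ Finset.univ.biUnion U ∧
        d.2 ∈ Finset.univ.biUnion Q)) ⊆
        (((Finset.univ : Finset ι).biUnion
          (fun i => P.db.filter (fun d => d.1 ∈ U i ∧ d.2 ∈ Q i))) ∪
        ((Finset.univ ×ˢ Finset.univ : Finset (ι × ι)).biUnion
          (fun p => if p.1 = p.2 then ∅ else
            P.db.filter (fun d => d.1 ∈ U p.1 ∧ d.2 ∈ Q p.2 \ Pop)))) ∪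
        ((Finset.univ : Finset ι).biUnion
          (fun i => P.db.filter (fun d => d.1 ∈ U i ∧ d.2 ∈ Pop))) := by
      intro d hd
      rw [Finset.mem_filter, Finset.mem_biUnion, Finset.mem_biUnion] at hd
      obtain ⟨hd1, ⟨i, _, hi⟩, ⟨j, _, hj⟩⟩ := hd
      rw [Finset.mem_union, Finset.mem_union, Finset.mem_biUnion, Finset.mem_biUnion,
        Finset.mem_biUnion]
      by_cases hP : d.2 ∈ Pop
      · exact Or.inr ⟨i, Finset.mem_univ _, Finset.mem_filter.2 ⟨hd1, hi, hP⟩⟩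
      · by_cases hij : i = j
        · exact Or.inl (Or.inl ⟨i, Finset.mem_univ _, Finset.mem_filter.2
            ⟨hd1, hi, hij ▸ hj⟩⟩)
        · refine Or.inl (Or.inr ⟨(i, j), Finset.mem_product.2
            ⟨Finset.mem_univ _, Finset.mem_univ _⟩, ?_⟩)
          simp only [if_neg hij]
          exact Finset.mem_filter.2 ⟨hd1, hi, Finset.mem_sdiff.2 ⟨hj, hP⟩⟩
    refine (Finset.card_le_card h2).trans ((Finset.card_union_le _ _).trans ?_)
    refine Nat.add_le_add ((Finset.card_union_le _ _).trans (Nat.add_le_add ?_ ?_)) ?_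
    · exact Finset.card_biUnion_le
    · refine Finset.card_biUnion_le.trans (Finset.sum_le_sum (fun p _ => ?_))
      by_cases hp : p.1 = p.2
      · simp [hp]
      · simp only [if_neg hp]
        exact le_rfl
    · exact Finset.card_biUnion_le
  exact_mod_cast h1

theorem gain_union {ι : Type} [Fintype ι] [DecidableEq ι] (P : GP N) (Pop : Finset (Sym2 (Fin N)))
    (U Q : ι → Finset (Sym2 (Fin N))) :
    ∑ i, gain P (U i) (Q i) - ∑ i, ∑ j, (if i = j then 0 else
        (((U i ∩ U j).card : ℝ) / 2 + g0 * (lk P (U i) (Q j \ Pop) : ℝ))) -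
        g0 * ∑ i, (lkp P Pop (U i) : ℝ) ≤
      gain P (Finset.univ.biUnion U) (Finset.univ.biUnion Q) := by
  have h4 := card_union_ge P.C U
  have h5 := mul_le_mul_of_nonneg_left (lk_union_le P Pop U Q) g0_pos.le
  have h6 : ∑ i, gain P (U i) (Q i) = (∑ i, ((U i ∩ P.C).card : ℝ)) -
      g0 * (∑ i, (lk P (U i) (Q i) : ℝ)) := by
    unfold gain
    rw [Finset.sum_sub_distrib, Finset.mul_sum]
  have h7 : ∑ i, ∑ j, (if i = j then 0 else
        (((U i ∩ U j).card : ℝ) / 2 + g0 * (lk P (U i) (Q j \ Pop) : ℝ))) =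
      (∑ i, ∑ j, (if i = j then 0 else ((U i ∩ U j).card : ℝ))) / 2 +
      g0 * (∑ i, ∑ j, (if i = j then 0 else (lk P (U i) (Q j \ Pop) : ℝ))) := by
    rw [Finset.sum_div, Finset.mul_sum, ← Finset.sum_add_distrib]
    refine Finset.sum_congr rfl (fun i _ => ?_)
    rw [Finset.sum_div, Finset.mul_sum, ← Finset.sum_add_distrib]
    refine Finset.sum_congr rfl (fun j _ => ?_)
    by_cases hij : i = j
    · simp [hij]
    · simp only [if_neg hij]
  rw [h6, h7]
  unfold gain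
  nlinarith [h4, h5]

theorem logb_wtP_union {P : GP N} {Dl : ℕ} (hV : P.Valid Dl) {ι : Type} [Fintype ι]
    [DecidableEq ι]
    (Pop : Finset (Sym2 (Fin N))) {U Q : ι → Finset (Sym2 (Fin N))} (hUQ : ∀ i, U i ⊆ Q i)
    (hQ : ∀ i, Disjoint (Q i) P.K) :
    ∑ i, gain P (U i) (Q i) - ∑ i, ∑ j, (if i = j then 0 else
        (((U i ∩ U j).card : ℝ) / 2 + g0 * (lk P (U i) (Q j \ Pop) : ℝ))) -
        g0 * ∑ i, (lkp P Pop (U i) : ℝ) ≤
      Real.logb 2 (wtP P (Finset.univ.biUnion Q)) := by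
  have h1 : Disjoint (Finset.univ.biUnion Q) P.K := by
    rw [Finset.disjoint_biUnion_left]
    exact fun i _ => hQ i
  rw [logb_wtP h1]
  refine (gain_union P Pop U Q).trans (gain_mono hV ?_)
  intro e he
  rw [Finset.mem_biUnion] at he ⊢
  obtain ⟨i, hi, hei⟩ := he
  exact ⟨i, hi, hUQ i hei⟩

end C0g
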